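import Pool.Agent.helper58.FR.CB3

/-!
# The class bound and the Jacobi step for `γ ∈ Ĥ_j`
-/

namespace Pool.Agent.helper40.FR

open Polynomial Finset Pool.Agent.helper40.Laz

variable {p : ℕ} [hp : Fact p.Prime]

/-- **The class bound** for `L_{j,m}(γ)`. -/
theorem HH.class_bound (hp5 : 5 ≤ p) {j : ℕ} (γ : HH p j) (hj : p ≤ j) {m : ℕ} (hm : j ≤ m)
    (hJ : γ.J ≤ PP p ^ m) : (γ.L hj m hJ).Nil (p - 2) :=
  (γ.iso hj hm hJ).nil (FR.class_bound hp5 γ.toBB (by omega) (m - j) ((γ.J_le hm).1 hJ))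

/-- Change of notation. -/
noncomputable def HH.toHhat {j : ℕ} (γ : HH p j) : helper58.FR.Hhat p j where
  form := LinearMap.mk₂ ℤ_[p] (fun x y => ⟨γ.g x y, γ.mem' x y⟩)
    (fun x y z => Subtype.ext (LinearMap.congr_fun (γ.g.map_add x y) z))
    (fun t x y => Subtype.ext (LinearMap.congr_fun (γ.g.map_smul t x) y))
    (fun x y z => Subtype.ext ((γ.g x).map_add y z))
    (fun t x y => Subtype.ext ((γ.g x).map_smul t y))
  alt x := Subtype.ext (γ.alt x)
  equivariant x y := Subtype.ext (γ.equi x y)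
  surj := by
    rw [eq_top_iff]
    rintro ⟨w, hw⟩ -
    have hw' : w ∈ Submodule.span ℤ_[p]
        (Set.range fun q : ↥(PP p ^ j) × ↥(PP p ^ j) => γ.g q.1 q.2) := by
      rw [γ.surj]; exact hw
    have key : ∀ v, v ∈ Submodule.span ℤ_[p]
        (Set.range fun q : ↥(PP p ^ j) × ↥(PP p ^ j) => γ.g q.1 q.2) →
        ∀ (hv : v ∈ helper58.FR.P p (2 * j + 1)),
        (⟨v, hv⟩ : ↥(helper58.FR.P p (2 * j + 1))) ∈ Submodule.span ℤ_[p]
          {z | ∃ x y : ↥(helper58.FR.P p j),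
            (⟨γ.g x y, γ.mem' x y⟩ : ↥(helper58.FR.P p (2 * j + 1))) = z} := by
      intro v hv
      have hall : ∀ v ∈ Submodule.span ℤ_[p]
          (Set.range fun q : ↥(PP p ^ j) × ↥(PP p ^ j) => γ.g q.1 q.2),
          v ∈ helper58.FR.P p (2 * j + 1) := by
        intro v hv
        rw [γ.surj] at hv
        exact hv
      induction hv using Submodule.span_induction with
      | mem x hx =>
        intro hv
        obtain ⟨⟨a, b⟩, rfl⟩ := hx
        exact Submodule.subset_span ⟨a, b, rfl⟩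
      | zero => intro hv; exact zero_mem _
      | add x y hx' hy' hx hy =>
        intro hv
        exact add_mem (hx (hall x hx')) (hy (hall y hy'))
      | smul t x hx' hx =>
        intro hv
        exact Submodule.smul_mem _ t (hx (hall x hx'))
    exact key w hw' hw

theorem HH.toHhat_J {j : ℕ} (γ : HH p j) : γ.toHhat.J = γ.J := by
  unfold helper58.FR.Hhat.J HH.J
  congr 1
  ext w
  constructor
  · rintro ⟨x, y, z, rfl⟩
    exact ⟨x, y, z, rfl⟩
  · rintro ⟨x, y, z, rfl⟩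
    exact ⟨x, y, z, rfl⟩

/-- **The Jacobi step.** -/
theorem HH.jacobi_step {j : ℕ} (γ : HH p j) (hj : p ≤ j) {m : ℕ} (hm : 2 * j + 2 ≤ m)
    (hJ : γ.J ≤ PP p ^ m) (L' : Type) [LieRing L'] [LieAlgebra ℤ_[p] L']
    (σ : L' →ₗ⁅ℤ_[p]⁆ L') (f : L' →ₗ⁅ℤ_[p]⁆ (γ.L hj m hJ).L) (hf : Function.Surjective f)
    (hσ : ∀ x, σ^[p] x = x)
    (hfσ : ∀ x, f (σ x) = (γ.L hj m hJ).act ⟨thU p, Subgroup.mem_zpowers _⟩ (f x))
    (hz : ∀ z, f z = 0 → σ z = z ∧ (p : ℤ_[p]) • z = 0 ∧ ∀ u : L', ⁅z, u⁆ = 0)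
    (hc : ∀ y, σ y = y → (∀ u : L', ⁅y, u⁆ = 0) → f y = 0) :
    γ.J ≤ PP p ^ (m + 1) := by
  let S : helper58.FR.LieSetup γ.toHhat m L' (γ.L hj m hJ).L :=
    { q := show ↥(PP p ^ j) →+ (γ.L hj m hJ).L from
        (Submodule.mkQ (Submodule.comap (PP p ^ j).subtype (PP p ^ m))).toAddMonoidHom
      q_surj := fun y => by
        obtain ⟨x, hx⟩ :=
          Submodule.mkQ_surjective (Submodule.comap (PP p ^ j).subtype (PP p ^ m)) y
        exact ⟨x, hx⟩
      q_ker := fun (x : ↥(PP p ^ j)) =>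
        (Submodule.Quotient.mk_eq_zero (Submodule.comap (PP p ^ j).subtype (PP p ^ m)) :
          Submodule.Quotient.mk x = 0 ↔ x ∈ Submodule.comap (PP p ^ j).subtype (PP p ^ m))
      q_lie := fun x y => rfl
      pr := (f : L' →ₗ[ℤ_[p]] (γ.L hj m hJ).L).toAddMonoidHom
      pr_surj := hf
      pr_lie := fun x y => f.map_lie x y
      sg := (σ : L' →ₗ[ℤ_[p]] L').toAddMonoidHom
      sg_θ := fun w x hwx => by
        change f w = _ at hwx
        change f (σ w) = _
        rw [hfσ, hwx]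
        rfl
      sg_pow := hσ
      z_sg := fun z h => (hz z h).1
      z_p := fun z h => by
        have h1 := (hz z h).2.1
        rwa [Nat.cast_smul_eq_nsmul] at h1
      z_c := fun z h => (hz z h).2.2
      fix := hc }
  have h := S.main hj (by omega) (by rw [γ.toHhat_J]; exact hJ)
  rwa [γ.toHhat_J] at h

end Pool.Agent.helper40.FR
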