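import Pool.Agent.helper58.FR.FOU

/-!
# The bound for `J_j(γ)` and the levels of `γ(𝔭^a ∧ 𝔭^b)`
-/

namespace Pool.Agent.helper58.FR

open Polynomial

variable {p : ℕ} [hp : Fact p.Prime] {j : ℕ}

theorem proj_mem (f : ZMod p → ZMod p → O p) {m : ℕ} (hf : ∀ k l, f k l ∈ P p m)
    (h1 : ∀ l, ∑ k, f k l = 0) (h2 : ∀ k, ∑ l, f k l = 0) (u v : ZMod p) :
    ∑ k : ZMod p, ∑ l : ZMod p, (E (-(u * k + v * l)) : O p) * f k l ∈ P p (m + 2) := by
  have e1 : ∑ k : ZMod p, ∑ l : ZMod p, (E (-(u * k)) : O p) * f k l = 0 := by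
    refine Finset.sum_eq_zero fun k _ => ?_
    rw [← Finset.mul_sum, h2, mul_zero]
  have e2 : ∑ k : ZMod p, ∑ l : ZMod p, (E (-(v * l)) : O p) * f k l = 0 := by
    rw [Finset.sum_comm]
    refine Finset.sum_eq_zero fun k _ => ?_
    rw [← Finset.mul_sum, h1, mul_zero]
  have e3 : ∑ k : ZMod p, ∑ l : ZMod p, f k l = 0 := by
    refine Finset.sum_eq_zero fun k _ => h2 k
  have e4 : ∑ k : ZMod p, ∑ l : ZMod p, (E (-(u * k + v * l)) : O p) * f k l
      = ∑ k : ZMod p, ∑ l : ZMod p, ((E (-(u * k)) : O p) - 1) * (E (-(v * l)) - 1) * f k l := by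
    have h : ∀ k l : ZMod p, ((E (-(u * k)) : O p) - 1) * (E (-(v * l)) - 1) * f k l
        = E (-(u * k + v * l)) * f k l - E (-(u * k)) * f k l - E (-(v * l)) * f k l + f k l := by
      intro k l
      rw [neg_add, AddChar.map_add_eq_mul]
      ring
    simp only [h, Finset.sum_add_distrib, Finset.sum_sub_distrib, e1, e2, e3]
    ring
  rw [e4]
  refine Ideal.sum_mem _ fun k _ => Ideal.sum_mem _ fun l _ => ?_
  have := mul_mem_P (mul_mem_P (E_sub_one_mem (-(u * k))) (E_sub_one_mem (-(v * l)))) (hf k l)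
  rwa [show 1 + 1 + m = m + 2 by ring] at this

namespace Hhat

variable (γ : Hhat p j)

/-- `F(u,v) = b_(u+v) σ_(u+v)(c_(u/(u+v)))`. -/
noncomputable def F (c : ZMod p → O p) (u v : ZMod p) : O p :=
  γ.b (u + v) * sig (u + v) (c (u / (u + v)))

/-- The Jacobi sums at `θ^k (θ p - 1)^j, θ^l (θ p - 1)^j, (θ p - 1)^j`. -/
noncomputable def Jc (k l : ZMod p) : O p :=
  γ.T (E k) (E l) (E 0) + γ.T (E l) (E 0) (E k) + γ.T (E 0) (E k) (E l)

theorem Jc_mem {m : ℕ} (hJ : γ.J ≤ P p m) (k l : ZMod p) : γ.Jc k l ∈ P p m :=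
  hJ (Ideal.subset_span ⟨E k • x0 j, E l • x0 j, E 0 • x0 j, rfl⟩)

theorem T_sum_left {ι : Type*} (S : Finset ι) (f : ι → O p) (s u : O p) :
    γ.T (∑ i ∈ S, f i) s u = ∑ i ∈ S, γ.T (f i) s u := by
  simp [T, Finset.sum_smul]

theorem T_sum_mid {ι : Type*} (S : Finset ι) (f : ι → O p) (s u : O p) :
    γ.T s (∑ i ∈ S, f i) u = ∑ i ∈ S, γ.T s (f i) u := by
  simp [T, Finset.sum_smul]

theorem T_sum_right {ι : Type*} (S : Finset ι) (f : ι → O p) (s u : O p) :
    γ.T s u (∑ i ∈ S, f i) = ∑ i ∈ S, γ.T s u (f i) := by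
  simp [T, Finset.sum_smul]

theorem Jc_sum_left (l : ZMod p) : ∑ k, γ.Jc k l = 0 := by
  simp only [Jc, Finset.sum_add_distrib]
  rw [← T_sum_left, ← T_sum_mid, ← T_sum_right, sum_E_univ, T_zero_left, T_zero_mid, T_zero_right]
  simp

theorem Jc_sum_right (k : ZMod p) : ∑ l, γ.Jc k l = 0 := by
  simp only [Jc, Finset.sum_add_distrib]
  rw [← T_sum_left, ← T_sum_mid, ← T_sum_right, sum_E_univ, T_zero_left, T_zero_mid, T_zero_right]
  simp

theorem Jc_proj {c : ZMod p → O p} (hc : ∀ a, γ.b a = (θ p - 1) ^ j * c a) (u v : ZMod p) :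
    ∑ k : ZMod p, ∑ l : ZMod p, (E (-(u * k + v * l)) : O p) * γ.Jc k l
      = γ.F c u v + γ.F c v (1 - u - v) + γ.F c (1 - u - v) u := by
  have hp2 : (p : O p) ^ 2 ≠ 0 := pow_ne_zero _ (by exact_mod_cast hp.out.ne_zero)
  have hG : ∀ e a, γ.b e * sig e (c a) ≠ 0 → e ≠ 0 := by
    rintro e a h rfl
    rw [b_zero, zero_mul] at h
    exact h rfl
  apply mul_left_cancel₀ hp2
  simp only [Jc, mul_add, Finset.sum_add_distrib, Finset.mul_sum]
  have hsw : ∀ x y : O p, (p : O p) ^ 2 * (x * y) = x * ((p : O p) ^ 2 * y) := by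
    intro x y; ring
  simp only [hsw, γ.T_formula hc]
  congr 1
  · congr 1
    · rw [F, ← proj (fun e a => γ.b e * sig e (c a)) (fun e a => e * a) (fun e a => e * (1 - a)) u v
        (u + v) (u / (u + v))]
      · refine Finset.sum_congr rfl fun k _ => Finset.sum_congr rfl fun l _ => ?_
        congr 1
        refine Finset.sum_congr rfl fun e _ => Finset.sum_congr rfl fun a _ => ?_
        congr 2
        ring
      · intro e a h h1 h2
        have he := hG e a h
        have h3 : e = u + v := by rw [← h1, ← h2]; ring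
        refine ⟨h3, ?_⟩
        rw [eq_div_iff (h3 ▸ he), ← h3, ← h1, mul_comm]
      · by_cases h : u + v = 0
        · left; rw [h, b_zero, zero_mul]
        · right
          constructor
          · field_simp
          · field_simp; ring
    · rw [F, ← proj (fun e a => γ.b e * sig e (c a)) (fun e a => 1 - e) (fun e a => e * a) u v
        (v + (1 - u - v)) (v / (v + (1 - u - v)))]
      · refine Finset.sum_congr rfl fun k _ => Finset.sum_congr rfl fun l _ => ?_
        congr 1
        refine Finset.sum_congr rfl fun e _ => Finset.sum_congr rfl fun a _ => ?_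
        congr 2
        ring
      · intro e a h h1 h2
        have he := hG e a h
        have h3 : e = v + (1 - u - v) := by rw [← h1]; ring
        refine ⟨h3, ?_⟩
        rw [eq_div_iff (h3 ▸ he), ← h3, ← h2, mul_comm]
      · by_cases h : v + (1 - u - v) = 0
        · left; rw [h, b_zero, zero_mul]
        · right
          constructor
          · ring
          · field_simp
  · rw [F, ← proj (fun e a => γ.b e * sig e (c a)) (fun e a => e * (1 - a)) (fun e a => 1 - e) u v
        (1 - u - v + u) ((1 - u - v) / (1 - u - v + u))]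
    · refine Finset.sum_congr rfl fun k _ => Finset.sum_congr rfl fun l _ => ?_
      congr 1
      refine Finset.sum_congr rfl fun e _ => Finset.sum_congr rfl fun a _ => ?_
      congr 2
      ring
    · intro e a h h1 h2
      have he := hG e a h
      have h3 : e = 1 - u - v + u := by rw [← h2]; ring
      refine ⟨h3, ?_⟩
      rw [eq_div_iff (h3 ▸ he), ← h3]
      have : e * a = e - e * (1 - a) := by ring
      rw [mul_comm, this, h1, h3]; ring
    · by_cases h : 1 - u - v + u = 0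
      · left; rw [h, b_zero, zero_mul]
      · right
        constructor
        · field_simp; ring
        · ring

theorem b_ne : ∃ a, γ.b a ≠ 0 := by
  by_contra h
  push Not at h
  have hB : ∀ r s, γ.B r s = 0 := by
    intro r s
    have h1 := γ.formula r s
    simp only [h, mul_zero, Finset.sum_const_zero] at h1
    exact (mul_eq_zero.1 h1).resolve_left (by exact_mod_cast hp.out.ne_zero)
  have h2 : Submodule.span ℤ_[p] {z | ∃ x y, γ.form x y = z} = ⊥ := by
    rw [Submodule.span_eq_bot]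
    rintro z ⟨x, y, rfl⟩
    obtain ⟨r, rfl⟩ := eq_smul_x0 x
    obtain ⟨s, rfl⟩ := eq_smul_x0 y
    exact Subtype.ext (hB r s)
  rw [γ.surj] at h2
  have h3 : (⟨(θ p - 1) ^ (2 * j + 1), mem_P.2 dvd_rfl⟩ : ↥(P p (2 * j + 1)))
      ∈ (⊤ : Submodule ℤ_[p] ↥(P p (2 * j + 1))) := trivial
  rw [h2, Submodule.mem_bot] at h3
  exact pi_pow_ne_zero (p := p) (2 * j + 1) (congrArg Subtype.val h3)

/-- The minimal level of the coefficients `b_a`. -/
theorem exists_e : ∃ e, 2 * j + 2 ≤ e ∧ (∀ a, γ.b a ∈ P p e) ∧ ∃ a, γ.b a ∉ P p (e + 1) := by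
  classical
  obtain ⟨a, ha⟩ := γ.b_ne
  obtain ⟨t, ht⟩ := not_mem_of_ne_zero ha
  have hex : ∃ t, ∃ a, γ.b a ∉ P p t := ⟨t, a, ht⟩
  have hmin := Nat.find_spec hex
  have hlow : ∀ s, s < Nat.find hex → ∀ a, γ.b a ∈ P p s := by
    intro s hs a
    by_contra hcon
    exact Nat.find_min hex hs ⟨a, hcon⟩
  have hge : 2 * j + 3 ≤ Nat.find hex := by
    by_contra hcon
    obtain ⟨a, ha⟩ := hmin
    exact ha (P_anti (by omega) (γ.b_mem a))
  refine ⟨Nat.find hex - 1, by omega, hlow _ (by omega), ?_⟩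
  rwa [show Nat.find hex - 1 + 1 = Nat.find hex by omega]

/-- Levels of the values of `γ`. -/
theorem level {e : ℕ} (he : ∀ a, γ.b a ∈ P p e) {s t : ℕ} {x y : O p} (hx : x ∈ P p s)
    (hy : y ∈ P p t) : (p : O p) * γ.B x y ∈ P p (e + s + t) := by
  rw [formula]
  refine Ideal.sum_mem _ fun a _ => ?_
  have h1 := mul_mem_P (mul_mem_P (sig_mem (a := a) hx) (sig_mem (a := 1 - a) hy)) (he a)
  rwa [show s + t + e = e + s + t by ring] at h1

/-- The bound for `J_j(γ)`. -/
theorem J_bound {e : ℕ} (hje : j ≤ e) (he : ∀ a, γ.b a ∈ P p e) (he' : ∃ a, γ.b a ∉ P p (e + 1))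
    {m : ℕ} (hJ : γ.J ≤ P p m) : m + 2 + j ≤ 2 * e := by
  by_contra hcon
  push Not at hcon
  have hβ : ∀ a, ∃ β : O p, γ.b a = (θ p - 1) ^ e * β := fun a => mem_P.1 (he a)
  choose β hβ using hβ
  have hc : ∀ a, γ.b a = (θ p - 1) ^ j * ((θ p - 1) ^ (e - j) * β a) := by
    intro a
    rw [hβ, ← mul_assoc, ← pow_add]
    congr 2; omega
  have hβ0 : β 0 = 0 := by
    have := γ.b_zero
    rw [hβ] at this
    exact (mul_eq_zero.1 this).resolve_left (pi_pow_ne_zero e)
  have hβs : ∀ a, β (1 - a) = - β a := by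
    intro a
    have := γ.b_one_sub a
    rw [hβ, hβ, ← mul_neg] at this
    exact mul_left_cancel₀ (pi_pow_ne_zero e) this
  obtain ⟨a0, ha0⟩ := he'
  have hres : res (β a0) ≠ 0 := by
    intro h
    apply ha0
    rw [hβ, pi_pow_mul_mem, mem_P, pow_one, ← ker_res]
    exact h
  -- structure constants
  have hF : ∀ u v : ZMod p, ∃ z : O p, γ.F (fun a => (θ p - 1) ^ (e - j) * β a) u v = (θ p - 1) ^ (e + (e - j)) * z ∧
      res z = res (β (u + v)) * ((u + v) ^ (e - j) * res (β (u / (u + v)))) := by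
    intro u v
    rw [F]
    by_cases huv : u + v = 0
    · refine ⟨0, ?_, ?_⟩
      · rw [huv, b_zero]; simp
      · rw [huv, hβ0]; simp
    · obtain ⟨z, hz1, hz2⟩ := sig_pi_pow_mul huv (e - j) (β (u / (u + v)))
      refine ⟨β (u + v) * z, ?_, ?_⟩
      · rw [hz1, hβ, pow_add]; ring
      · rw [map_mul, hz2]
  have hjac1 : ∀ u v w : ZMod p, u + v + w = 1 →
      res (β (u + v)) * ((u + v) ^ (e - j) * res (β (u / (u + v)))) +
      res (β (v + w)) * ((v + w) ^ (e - j) * res (β (v / (v + w)))) +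
      res (β (w + u)) * ((w + u) ^ (e - j) * res (β (w / (w + u)))) = 0 := by
    intro u v w huvw
    have hw : w = 1 - u - v := by rw [← huvw]; ring
    have h1 := γ.Jc_proj hc u v
    have h2 := proj_mem (fun k l => γ.Jc k l) (γ.Jc_mem hJ) γ.Jc_sum_left γ.Jc_sum_right u v
    rw [h1, ← hw] at h2
    obtain ⟨z1, hz1, hz1'⟩ := hF u v
    obtain ⟨z2, hz2, hz2'⟩ := hF v w
    obtain ⟨z3, hz3, hz3'⟩ := hF w u
    rw [hz1, hz2, hz3, ← mul_add, ← mul_add] at h2
    have h3 : ((θ p - 1) : O p) ^ (e + (e - j)) * (z1 + z2 + z3) ∈ P p (e + (e - j) + 1) :=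
      P_anti (by omega) h2
    rw [pi_pow_mul_mem, mem_P, pow_one, ← ker_res, map_add, map_add, hz1', hz2', hz3'] at h3
    exact h3
  set N := e - j with hN
  let ψ : ZMod p → ZMod p → ZMod p := fun u v =>
    if u + v = 0 then 0 else (u + v) ^ N * res (β (u / (u + v)))
  have hψs : ∀ s u v : ZMod p, s ≠ 0 → ψ (s * u) (s * v) = s ^ N * ψ u v := by
    intro s u v hs
    simp only [ψ]
    rw [← mul_add]
    by_cases h : u + v = 0
    · simp [h]
    · rw [if_neg h, if_neg (mul_ne_zero hs h), mul_pow, mul_assoc, mul_div_mul_left _ _ hs]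
  have hψ1 : ∀ u v w : ZMod p, u + v + w = 1 → ψ u v * ψ (u + v) w
      = res (β (u + v)) * ((u + v) ^ N * res (β (u / (u + v)))) := by
    intro u v w h
    simp only [ψ]
    rw [h, one_pow, one_mul, div_one, if_neg (show (1 : ZMod p) ≠ 0 by
      have : Fact (1 < p) := ⟨one_lt_p⟩
      exact one_ne_zero)]
    by_cases h' : u + v = 0
    · rw [if_pos h', h', hβ0]; simp
    · rw [if_neg h']; ring
  refine kreknin ψ ?_ ?_ ?_ ?_
  · intro v
    simp only [ψ]
    split_ifs with h
    · rfl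
    · rw [zero_div, hβ0]; simp
  · intro u v h
    simp only [ψ] at h ⊢
    rw [add_comm v u]
    split_ifs at h ⊢ with h1
    · rfl
    · have : v / (u + v) = 1 - u / (u + v) := by field_simp; ring
      rw [this, hβs, map_neg, mul_neg, h, neg_zero]
  · intro u v w
    by_cases hs : u + v + w = 0
    · have z : ∀ x y : ZMod p, x + y = 0 → ψ x y = 0 := by
        intro x y h; simp only [ψ]; rw [if_pos h]
      rw [z (u + v) w hs, z (v + w) u (by rw [← hs]; ring), z (w + u) v (by rw [← hs]; ring)]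
      ring
    · set s := u + v + w with hsdef
      have hu : u = s * (u / s) := by field_simp
      have hv : v = s * (v / s) := by field_simp
      have hw : w = s * (w / s) := by field_simp
      have hsum : u / s + v / s + w / s = 1 := by rw [← add_div, ← add_div, ← hsdef, div_self hs]
      rw [hu, hv, hw]
      rw [← mul_add, ← mul_add, ← mul_add, hψs _ _ _ hs, hψs _ _ _ hs, hψs _ _ _ hs, hψs _ _ _ hs,
        hψs _ _ _ hs, hψs _ _ _ hs]
      have h1 := hψ1 (u / s) (v / s) (w / s) hsum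
      have h2 := hψ1 (v / s) (w / s) (u / s) (by rw [← hsum]; ring)
      have h3 := hψ1 (w / s) (u / s) (v / s) (by rw [← hsum]; ring)
      have h4 := hjac1 (u / s) (v / s) (w / s) hsum
      rw [← h1, ← h2, ← h3] at h4
      linear_combination (s ^ N) ^ 2 * h4
  · intro r hr
    refine ⟨r * (1 - a0), ?_⟩
    simp only [ψ]
    have h1 : r - r * (1 - a0) + r * (1 - a0) = r := by ring
    rw [h1, if_neg hr]
    have h2 : (r - r * (1 - a0)) / r = a0 := by field_simp; ring
    rw [h2]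
    exact mul_ne_zero (pow_ne_zero _ hr) hres

end Hhat

end Pool.Agent.helper58.FR
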