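import Pool.Agent.helper58.FR.BND

/-!
# The Lie ring argument

If the Lie ring `L_{j,m}(γ)` has a central extension by a group of order `p`, with an automorphism
of order `p` lifting `θ`, which is uniserial, then `J_j(γ) ⊆ 𝔭^(m+1)`.
-/

namespace Pool.Agent.helper58.FR

open Polynomial

variable {p : ℕ} [hp : Fact p.Prime] {j : ℕ}

/-- `γ(𝔭^a ∧ 𝔭^j) ⊆ 𝔭^(a + (j + 3 - p))`. -/
theorem Hhat.stab (γ : Hhat p j) (hj : p ≤ j + 3) {a : ℕ} (ha : j ≤ a) {x : ↥(P p j)}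
    (hx : (x : O p) ∈ P p a) (y : ↥(P p j)) : (γ.form x y : O p) ∈ P p (a + (j + 3 - p)) := by
  obtain ⟨e, he1, he2, _⟩ := γ.exists_e
  obtain ⟨r, rfl⟩ := eq_smul_x0 x
  obtain ⟨s, rfl⟩ := eq_smul_x0 y
  have hr : r ∈ P p (a - j) := by
    change r * (θ p - 1) ^ j ∈ P p a at hx
    rw [mul_comm, show a = j + (a - j) by omega, pi_pow_mul_mem] at hx
    exact hx
  have hs : s ∈ P p 0 := by rw [P_zero]; trivial
  have h1 := γ.level he2 hr hs
  change γ.B r s ∈ _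
  rw [← p_mul_mem]
  refine P_anti ?_ h1
  have := one_lt_p (p := p)
  omega

/-- The polynomial `v` with `Σ_(k<p) (1+X)^k = p v + X^(p-1)`, `v(0) = 1`. -/
theorem exists_v (p : ℕ) (hp : p.Prime) : ∃ v : ℤ[X], ∑ k ∈ Finset.range p, (X + 1 : ℤ[X]) ^ k
    = (p : ℤ[X]) * v + X ^ (p - 1) ∧ v.coeff 0 = 1 := by
  have h := Polynomial.geom_sum_X_comp_X_add_one_eq_sum (R := ℤ) p
  have hd : ∀ i ∈ Finset.range (p - 1), (p : ℤ) ∣ (p.choose (i + 1) : ℤ) := by
    intro i hi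
    rw [Finset.mem_range] at hi
    exact_mod_cast hp.dvd_choose_self (by omega) (by omega)
  refine ⟨∑ i ∈ Finset.range (p - 1), C ((p.choose (i + 1) : ℤ) / p) * X ^ i, ?_, ?_⟩
  · have h1 : ∑ k ∈ Finset.range p, (X + 1 : ℤ[X]) ^ k
        = (∑ i ∈ Finset.range p, (X : ℤ[X]) ^ i).comp (X + 1) := by
      simp [Polynomial.sum_comp]
    rw [h1, h]
    obtain ⟨n, rfl⟩ : ∃ n, p = n + 1 := ⟨p - 1, by have := hp.pos; omega⟩
    rw [Finset.sum_range_succ, Finset.mul_sum, Nat.add_sub_cancel]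
    congr 1
    · refine Finset.sum_congr rfl fun i hi => ?_
      have hne : ((n + 1 : ℕ) : ℤ) ≠ 0 := by positivity
      have h2 : (((n + 1).choose (i + 1) : ℕ) : ℤ[X])
          = ((n + 1 : ℕ) : ℤ[X]) * C ((((n + 1).choose (i + 1) : ℕ) : ℤ) / ((n + 1 : ℕ) : ℤ)) := by
        have h3 : (((n + 1).choose (i + 1) : ℕ) : ℤ)
            = ((n + 1 : ℕ) : ℤ) * ((((n + 1).choose (i + 1) : ℕ) : ℤ) / ((n + 1 : ℕ) : ℤ)) :=
          (Int.mul_ediv_cancel' (hd i (by simpa using hi))).symm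
        have h4 := congrArg (C : ℤ → ℤ[X]) h3
        rw [C_mul] at h4
        simpa using h4
      rw [h2, mul_assoc]
    · simp
  · rw [finsetSum_coeff]
    have hp2 := hp.two_le
    rw [Finset.sum_eq_single 0]
    · simp
      exact Int.ediv_self (by exact_mod_cast hp.ne_zero)
    · intro i _ hi
      rw [coeff_C_mul, coeff_X_pow, if_neg (Ne.symm hi), mul_zero]
    · intro h
      exact absurd (Finset.mem_range.2 (by omega)) h

section Lie

variable (γ : Hhat p j) {m : ℕ} {L Q : Type*} [LieRing L] [AddCommGroup Q] [Bracket Q Q]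

/-- The data of the Lie ring argument. -/
structure LieSetup (γ : Hhat p j) (m : ℕ) (L Q : Type*) [LieRing L] [AddCommGroup Q] [Bracket Q Q]
    where
  /-- the projection `𝔭^j → 𝔭^j/𝔭^m` -/
  q : ↥(P p j) →+ Q
  q_surj : Function.Surjective q
  q_ker : ∀ x, q x = 0 ↔ (x : O p) ∈ P p m
  q_lie : ∀ x y, ⁅q x, q y⁆ = q (incl j (γ.form x y))
  /-- the projection `L → 𝔭^j/𝔭^m` -/
  pr : L →+ Q
  pr_surj : Function.Surjective pr
  pr_lie : ∀ x y : L, pr ⁅x, y⁆ = ⁅pr x, pr y⁆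
  /-- the lift of `θ` -/
  sg : AddMonoid.End L
  sg_θ : ∀ w x, pr w = q x → pr (sg w) = q (θ p • x)
  sg_pow : ∀ w, sg^[p] w = w
  z_sg : ∀ z, pr z = 0 → sg z = z
  z_p : ∀ z, pr z = 0 → p • z = 0
  z_c : ∀ z, pr z = 0 → ∀ x : L, ⁅z, x⁆ = 0
  fix : ∀ y, sg y = y → (∀ x : L, ⁅y, x⁆ = 0) → pr y = 0

namespace LieSetup

variable {γ} (S : LieSetup γ m L Q)

/-- `tau = σ - 1`. -/
def tau : AddMonoid.End L := S.sg - 1

theorem tau_apply (w : L) : S.tau w = S.sg w - w := rfl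

theorem pow_sg (n : ℕ) (w : L) : (S.sg ^ n) w = S.sg^[n] w := by
  induction n generalizing w with
  | zero => rfl
  | succ n ih => rw [pow_succ, AddMonoid.End.coe_mul, Function.comp_apply, ih, Function.iterate_succ_apply]

theorem sg_p : S.sg ^ p = 1 := by
  ext w
  rw [pow_sg, S.sg_pow]; rfl

theorem tau_lift {w : L} {x : ↥(P p j)} (h : S.pr w = S.q x) : S.pr (S.tau w) = S.q (((θ p - 1) : O p) • x) := by
  rw [tau_apply, map_sub, S.sg_θ w x h, h, ← map_sub]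
  congr 1
  rw [sub_smul, one_smul]

theorem tau_pow_lift (n : ℕ) {w : L} {x : ↥(P p j)} (h : S.pr w = S.q x) :
    S.pr ((S.tau ^ n) w) = S.q (((θ p - 1) : O p) ^ n • x) := by
  induction n with
  | zero => simpa using h
  | succ n ih =>
    rw [pow_succ', AddMonoid.End.coe_mul, Function.comp_apply, S.tau_lift ih, pow_succ', mul_smul]

theorem tau_z {z : L} (h : S.pr z = 0) : S.tau z = 0 := by rw [tau_apply, S.z_sg z h, sub_self]

theorem tau_pow_z {n : ℕ} (hn : 1 ≤ n) {z : L} (h : S.pr z = 0) : (S.tau ^ n) z = 0 := by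
  obtain ⟨k, rfl⟩ : ∃ k, n = k + 1 := ⟨n - 1, by omega⟩
  rw [pow_succ, AddMonoid.End.coe_mul, Function.comp_apply, S.tau_z h, map_zero]

theorem exists_lift (x : ↥(P p j)) : ∃ w : L, S.pr w = S.q x := S.pr_surj _

/-- The endomorphism `v(τ)`. -/
theorem exists_V : ∃ V : AddMonoid.End L, (∀ w, p • V (S.tau w) = - (S.tau ^ (p - 1)) (S.tau w)) ∧
    (∀ z, S.pr z = 0 → V z = z) ∧ (∀ w, V (S.tau w) = S.tau (V w)) ∧
    (∀ n w, V ((S.tau ^ n) w) = (S.tau ^ n) (V w)) := by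
  obtain ⟨v, hv, hv0⟩ := exists_v p hp.out
  have hcomm : ∀ n, (aeval S.tau v) * S.tau ^ n = S.tau ^ n * aeval S.tau v := by
    intro n
    have h1 : S.tau ^ n = aeval S.tau (X ^ n : ℤ[X]) := by simp
    rw [h1, ← map_mul, ← map_mul, mul_comm]
  refine ⟨aeval S.tau v, ?_, ?_, ?_, ?_⟩
  · intro w
    have h1 := congrArg (aeval S.tau) hv
    simp only [map_sum, map_pow, map_add, map_mul, aeval_X, map_one, map_natCast] at h1
    have h2 : S.tau + 1 = S.sg := by rw [tau]; abel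
    rw [h2] at h1
    have h3 : (∑ k ∈ Finset.range p, S.sg ^ k) * S.tau = 0 := by
      rw [tau, geom_sum_mul, S.sg_p, sub_self]
    rw [h1] at h3
    have h4 : p • (aeval S.tau v) (S.tau w) + (S.tau ^ (p - 1)) (S.tau w) = 0 :=
      congrArg (fun f : AddMonoid.End L => f w) h3
    exact eq_neg_of_add_eq_zero_left h4
  · intro z hz
    have h1 : aeval S.tau v = aeval S.tau v.divX * S.tau + 1 := by
      conv_lhs => rw [← divX_mul_X_add v, hv0]
      simp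
    have h2 : (aeval S.tau v) z = (aeval S.tau v.divX) (S.tau z) + z :=
      congrArg (fun f : AddMonoid.End L => f z) h1
    rw [h2, S.tau_z hz, map_zero, zero_add]
  · intro w
    have := hcomm 1
    rw [pow_one] at this
    exact congrArg (fun f : AddMonoid.End L => f w) this
  · intro n w
    exact congrArg (fun f : AddMonoid.End L => f w) (hcomm n)

/-- `A4`: elements of level `t` are `τ^(t-j)` of something, up to the kernel. -/
theorem exists_root {t : ℕ} (ht : j ≤ t) {w : L} {x : ↥(P p j)} (h : S.pr w = S.q x)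
    (hx : (x : O p) ∈ P p t) : ∃ (w' z : L) (x' : ↥(P p j)), S.pr w' = S.q x' ∧ S.pr z = 0 ∧
      w = (S.tau ^ (t - j)) w' + z ∧ (x : O p) = (θ p - 1) ^ (t - j) * x' := by
  obtain ⟨y, hy⟩ := mem_P.1 hx
  let x' : ↥(P p j) := ⟨(θ p - 1) ^ j * y, by rw [mem_P]; exact dvd_mul_right _ _⟩
  have hxx : (x : O p) = (θ p - 1) ^ (t - j) * x' := by
    rw [hy]
    change _ = (θ p - 1) ^ (t - j) * ((θ p - 1) ^ j * y)
    rw [← mul_assoc, ← pow_add]
    congr 2; omega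
  have hxx' : x = ((θ p - 1) : O p) ^ (t - j) • x' := Subtype.ext hxx
  obtain ⟨w', hw'⟩ := S.exists_lift x'
  refine ⟨w', w - (S.tau ^ (t - j)) w', x', hw', ?_, by abel, hxx⟩
  rw [map_sub, h, S.tau_pow_lift _ hw', ← hxx', sub_self]

theorem exists_digit (x : ↥(P p j)) : ∃ (c : ℤ) (y : ↥(P p j)), x = c • x0 j + ((θ p - 1) : O p) • y ∧
    ((x : O p) ∉ P p (j + 1) → ¬ (p : ℤ) ∣ c) := by
  obtain ⟨c, hc1, hc2⟩ := digit x.2
  obtain ⟨y, hy⟩ := mem_P.1 hc1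
  refine ⟨c, ⟨(θ p - 1) ^ j * y, by rw [mem_P]; exact dvd_mul_right _ _⟩, Subtype.ext ?_, hc2⟩
  rw [Submodule.coe_add]
  change (x : O p) = ((c • x0 j : ↥(P p j)) : O p) + (θ p - 1) * ((θ p - 1) ^ j * y)
  have h1 : ((c • x0 j : ↥(P p j)) : O p) = c * (θ p - 1) ^ j := by
    rw [Submodule.coe_smul_of_tower]
    simp [x0]
  rw [h1]
  linear_combination hy

/-- `A5`. -/
theorem top_level (hjm : j + 1 ≤ m) {w0 : L} (h0 : S.pr w0 = S.q (x0 j)) {w : L} {x : ↥(P p j)}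
    (h : S.pr w = S.q x) : ∃ c : ℤ, (S.tau ^ (m - j)) w = c • (S.tau ^ (m - j)) w0 ∧
      ((x : O p) ∉ P p (j + 1) → ¬ (p : ℤ) ∣ c) := by
  obtain ⟨c, y, hxy, hc⟩ := exists_digit x
  refine ⟨c, ?_, hc⟩
  obtain ⟨w', hw'⟩ := S.exists_lift y
  have hz : S.pr (w - c • w0 - S.tau w') = 0 := by
    rw [map_sub, map_sub, map_zsmul, h, h0, S.tau_lift hw', hxy, map_add, map_zsmul]
    abel
  have h1 := S.tau_pow_z (n := m - j) (by omega) hz
  rw [map_sub, map_sub, map_zsmul] at h1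
  have h2 : (S.tau ^ (m - j)) (S.tau w') = 0 := by
    have h3 : (S.tau ^ (m - j)) (S.tau w') = S.tau ((S.tau ^ (m - j)) w') := by
      have : S.tau ^ (m - j) * S.tau = S.tau * S.tau ^ (m - j) := by rw [← pow_succ, pow_succ']
      exact congrArg (fun f : AddMonoid.End L => f w') this
    rw [h3]
    apply S.tau_z
    rw [S.tau_pow_lift _ hw', S.q_ker]
    change ((θ p - 1) : O p) ^ (m - j) * y ∈ _
    have := mul_mem_P (mem_P.2 (dvd_refl (((θ p - 1) : O p) ^ (m - j)))) y.2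
    rwa [show m - j + j = m by omega] at this
  rw [h2, sub_zero, sub_eq_zero] at h1
  exact h1

/-- `A1`: multiplication by `p` on elements of level at least `j+1`. -/
theorem p_mul {V : AddMonoid.End L} (hV1 : ∀ w, p • V (S.tau w) = - (S.tau ^ (p - 1)) (S.tau w))
    (hV2 : ∀ z, S.pr z = 0 → V z = z) {w : L} {x : ↥(P p j)} (h : S.pr w = S.q x)
    (hx : (x : O p) ∈ P p (j + 1)) : p • V w = - (S.tau ^ (p - 1)) w := by
  obtain ⟨w', z, x', _, hz, hw, _⟩ := S.exists_root (by omega) h hx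
  rw [show j + 1 - j = 1 by omega, pow_one] at hw
  have hp1 := one_lt_p (p := p)
  rw [hw, map_add, map_add, smul_add, hV1, hV2 z hz, S.z_p z hz, S.tau_pow_z (by omega) hz,
    add_zero, add_zero]

/-- The uniserial structure: `τ^(m-j)` does not kill a generator. -/
theorem top_ne (hj : p ≤ j) (hm : j + p + 1 ≤ m) {w0 : L} (h0 : S.pr w0 = S.q (x0 j)) :
    (S.tau ^ (m - j)) w0 ≠ 0 := by
  intro hcon
  have hp1 := one_lt_p (p := p)
  obtain ⟨V, hV1, hV2, _, hV4⟩ := S.exists_V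
  have hkill : ∀ w, (S.tau ^ (m - j)) w = 0 := by
    intro w
    obtain ⟨x, hx⟩ : ∃ x, S.pr w = S.q x := by
      obtain ⟨x, hx⟩ := S.q_surj (S.pr w)
      exact ⟨x, hx.symm⟩
    obtain ⟨c, hc, _⟩ := S.top_level (by omega) h0 hx
    rw [hc, hcon, smul_zero]
  set y := (S.tau ^ (m - 1 - j)) w0 with hy
  have hyq : S.pr y = S.q (((θ p - 1) : O p) ^ (m - 1 - j) • x0 j) := S.tau_pow_lift _ h0
  have hyx : ((((θ p - 1) : O p) ^ (m - 1 - j) • x0 j : ↥(P p j)) : O p) = (θ p - 1) ^ (m - 1) := by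
    change ((θ p - 1) : O p) ^ (m - 1 - j) * (θ p - 1) ^ j = _
    rw [← pow_add]; congr 1; omega
  have hy0 : S.pr y ≠ 0 := by
    rw [hyq, Ne, S.q_ker, hyx, show m = (m - 1) + 1 by omega]
    intro h
    have h2 := (pi_pow_mul_mem (p := p) (s := m - 1 + 1 - 1) (t := 1) (x := 1)).1 (by
      rw [mul_one, show m - 1 + 1 - 1 + 1 = m - 1 + 1 by omega]; exact h)
    rw [mem_P, pow_one, ← ker_res, map_one] at h2
    exact one_ne_zero h2
  have hτy : S.tau y = 0 := by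
    have : S.tau y = (S.tau ^ (m - j)) w0 := by
      rw [show m - j = (m - 1 - j) + 1 by omega, pow_succ']; rfl
    rw [this, hcon]
  have hfix : S.sg y = y := by
    rw [tau_apply] at hτy
    exact sub_eq_zero.1 hτy
  apply hy0
  refine S.fix y hfix fun u => ?_
  -- `y = p y1`
  set y0 := (S.tau ^ (m - p - j)) w0 with hy0def
  have hy0q : S.pr y0 = S.q (((θ p - 1) : O p) ^ (m - p - j) • x0 j) := S.tau_pow_lift _ h0
  have hy0m : ((((θ p - 1) : O p) ^ (m - p - j) • x0 j : ↥(P p j)) : O p) ∈ P p (j + 1) := by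
    change ((θ p - 1) : O p) ^ (m - p - j) * (θ p - 1) ^ j ∈ _
    rw [← pow_add, mem_P]
    exact pow_dvd_pow _ (by omega)
  have hpy : p • V y0 = - y := by
    rw [S.p_mul hV1 hV2 hy0q hy0m, hy0def, hy]
    congr 1
    have : S.tau ^ (p - 1) * S.tau ^ (m - p - j) = S.tau ^ (m - 1 - j) := by
      rw [← pow_add]; congr 1; omega
    exact congrArg (fun f : AddMonoid.End L => f w0) this
  have hy1 : y = p • (- V y0) := by rw [smul_neg, hpy, neg_neg]
  rw [hy1, nsmul_lie]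
  set w := ⁅- V y0, u⁆ with hw
  have hpw : S.pr (p • w) = 0 := by
    rw [hw, ← nsmul_lie, ← hy1, S.pr_lie, hyq]
    obtain ⟨u0, hu0⟩ := S.q_surj (S.pr u)
    rw [← hu0, S.q_lie, S.q_ker]
    have h3 := γ.stab (by omega) (show j ≤ m - 1 by omega)
      (x := ((θ p - 1) : O p) ^ (m - 1 - j) • x0 j) (by rw [hyx]; exact mem_P.2 dvd_rfl) u0
    exact P_anti (by omega) h3
  obtain ⟨xw, hxw⟩ := S.q_surj (S.pr w)
  have hxwm : (xw : O p) ∈ P p (m - (p - 1)) := by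
    rw [map_nsmul, ← hxw, ← map_nsmul, S.q_ker] at hpw
    have h4 : ((p • xw : ↥(P p j)) : O p) = p * xw := by
      rw [Submodule.coe_smul_of_tower, nsmul_eq_mul]
    rw [h4] at hpw
    rw [← p_mul_mem]
    rwa [show m - (p - 1) + (p - 1) = m by omega]
  have hVw := S.p_mul hV1 hV2 hxw.symm (P_anti (by omega) hxwm)
  obtain ⟨w', z, x', hw'q, hz, hww, _⟩ := S.exists_root (by omega) hxw.symm hxwm
  have hτw : (S.tau ^ (p - 1)) w = 0 := by
    rw [hww, map_add, S.tau_pow_z (by omega) hz, add_zero]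
    have : S.tau ^ (p - 1) * S.tau ^ (m - (p - 1) - j) = S.tau ^ (m - j) := by
      rw [← pow_add]; congr 1; omega
    have h5 := congrArg (fun f : AddMonoid.End L => f w') this
    change (S.tau ^ (p - 1)) ((S.tau ^ (m - (p - 1) - j)) w') = _ at h5
    rw [h5]
    exact hkill w'
  rw [hτw, neg_zero, ← map_nsmul] at hVw
  rw [hV2 _ hpw] at hVw
  exact hVw

/-- Division by `p` in `𝔭^j`. -/
theorem exists_div {t : ℕ} (ht : j ≤ t) {x : O p} (hx : x ∈ P p (t + (p - 1))) :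
    ∃ y : ↥(P p j), (p : O p) * y = x ∧ (y : O p) ∈ P p t := by
  obtain ⟨u, hu, hpu⟩ := exists_p_eq (p := p)
  obtain ⟨v, hv⟩ := hu.exists_right_inv
  obtain ⟨z, hz⟩ := mem_P.1 hx
  have hm : ((θ p - 1) : O p) ^ t * (v * z) ∈ P p t := by rw [mem_P]; exact dvd_mul_right _ _
  refine ⟨⟨(θ p - 1) ^ t * (v * z), P_anti ht hm⟩, ?_, hm⟩
  change (p : O p) * ((θ p - 1) ^ t * (v * z)) = x
  rw [hpu, hz, pow_add]
  linear_combination ((θ p - 1) : O p) ^ t * (θ p - 1) ^ (p - 1) * z * hv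

/-- `A6`. -/
theorem lie_div (hj : p ≤ j) {w1 w2 : L} {x y : ↥(P p j)} (h1 : S.pr w1 = S.q x)
    (h2 : S.pr w2 = S.q y) : ∃ (w z : L) (v : ↥(P p j)), S.pr w = S.q v ∧ S.pr z = 0 ∧
      ⁅w1, w2⁆ = p • w + z ∧ p • v = incl j (γ.form x y) ∧ (v : O p) ∈ P p (2 * j + 2 - p) := by
  have hp1 := one_lt_p (p := p)
  obtain ⟨v, hv, hvm⟩ := exists_div (p := p) (j := j) (t := 2 * j + 2 - p) (by omega)
    (x := (γ.form x y : O p)) (by
      rw [show 2 * j + 2 - p + (p - 1) = 2 * j + 1 by omega]; exact (γ.form x y).2)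
  have hv' : p • v = incl j (γ.form x y) := by
    apply Subtype.ext
    rw [Submodule.coe_smul_of_tower, nsmul_eq_mul, hv]
    rfl
  obtain ⟨w, hw⟩ := S.exists_lift v
  refine ⟨w, ⁅w1, w2⁆ - p • w, v, hw, ?_, by abel, hv', hvm⟩
  rw [map_sub, S.pr_lie, h1, h2, S.q_lie, map_nsmul, hw, ← map_nsmul, hv', sub_self]

/-- Double brackets are divisible by `p^2`. -/
theorem lie_div2 (hj : p ≤ j) {w1 w2 w3 : L} {x y z : ↥(P p j)} (h1 : S.pr w1 = S.q x)
    (h2 : S.pr w2 = S.q y) (h3 : S.pr w3 = S.q z) : ∃ (w : L) (v : ↥(P p j)), S.pr w = S.q v ∧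
      ⁅⁅w1, w2⁆, w3⁆ = p • p • w ∧
      (p : O p) * (p * v) = (γ.form (incl j (γ.form x y)) z : O p) ∧
      (v : O p) ∈ P p (2 * j + 2 - p) := by
  obtain ⟨w, ζ, v, hw, hζ, hl, hv, _⟩ := S.lie_div hj h1 h2
  obtain ⟨w', ζ', v', hw', hζ', hl', hv', hvm'⟩ := S.lie_div hj hw h3
  refine ⟨w', v', hw', ?_, ?_, hvm'⟩
  · rw [hl, add_lie, S.z_c ζ hζ, add_zero, nsmul_lie, hl', smul_add, S.z_p ζ' hζ', add_zero]
  · rw [← hv, map_nsmul, LinearMap.smul_apply]
    have h4 := congrArg Subtype.val hv'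
    rw [Submodule.coe_smul_of_tower, nsmul_eq_mul] at h4
    rw [Submodule.coe_smul_of_tower, nsmul_eq_mul, h4]
    rfl

/-- **The Lie ring argument.** -/
theorem main (S : LieSetup γ m L Q) (hj : p ≤ j) (hm : j + p + 1 ≤ m) (hJ : γ.J ≤ P p m) :
    γ.J ≤ P p (m + 1) := by
  have hp1 := one_lt_p (p := p)
  rw [Hhat.J, Ideal.span_le]
  rintro _ ⟨x, y, z, rfl⟩
  by_contra hcon
  change γ.jac x y z ∉ P p (m + 1) at hcon
  have hJm : γ.jac x y z ∈ P p m := hJ (Ideal.subset_span ⟨x, y, z, rfl⟩)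
  obtain ⟨w0, h0⟩ := S.exists_lift (x0 j)
  have hne := S.top_ne hj hm h0
  obtain ⟨V, hV1, hV2, _, hV4⟩ := S.exists_V
  obtain ⟨w1, h1⟩ := S.exists_lift x
  obtain ⟨w2, h2⟩ := S.exists_lift y
  obtain ⟨w3, h3⟩ := S.exists_lift z
  obtain ⟨a1, v1, ha1, hl1, hv1, hm1⟩ := S.lie_div2 hj h1 h2 h3
  obtain ⟨a2, v2, ha2, hl2, hv2, hm2⟩ := S.lie_div2 hj h2 h3 h1
  obtain ⟨a3, v3, ha3, hl3, hv3, hm3⟩ := S.lie_div2 hj h3 h1 h2
  set W := a1 + a2 + a3 with hW
  set W0 := v1 + v2 + v3 with hW0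
  have hWq : S.pr W = S.q W0 := by rw [hW, hW0]; simp [ha1, ha2, ha3]
  have hppW : p • p • W = 0 := by
    have hjac : ⁅⁅w1, w2⁆, w3⁆ + ⁅⁅w2, w3⁆, w1⁆ + ⁅⁅w3, w1⁆, w2⁆ = 0 := by
      have h := lie_jacobi w1 w2 w3
      rw [← lie_skew w1 ⁅w2, w3⁆, ← lie_skew w2 ⁅w3, w1⁆, ← lie_skew w3 ⁅w1, w2⁆] at h
      rw [← neg_eq_zero, ← h]; abel
    rw [hW, smul_add, smul_add, smul_add, smul_add, ← hl1, ← hl2, ← hl3, hjac]
  have hpp : (p : O p) * (p * W0) = γ.jac x y z := by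
    rw [Hhat.jac, ← hv1, ← hv2, ← hv3, hW0]
    push_cast
    ring
  have hmm : (p - 1) + (p - 1) ≤ m := by omega
  have hW0m : (W0 : O p) ∈ P p (m - ((p - 1) + (p - 1))) := by
    rw [← p_mul_mem, ← p_mul_mem, hpp]
    rwa [show m - ((p - 1) + (p - 1)) + (p - 1) + (p - 1) = m by omega]
  have hW0m' : (W0 : O p) ∉ P p (m - ((p - 1) + (p - 1)) + 1) := by
    intro h
    apply hcon
    rw [← hpp]
    rw [← p_mul_mem, ← p_mul_mem] at h
    rwa [show m - ((p - 1) + (p - 1)) + 1 + (p - 1) + (p - 1) = m + 1 by omega] at h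
  have hW0j : (W0 : O p) ∈ P p (2 * j + 2 - p) := by
    rw [hW0]
    push_cast
    exact Ideal.add_mem _ (Ideal.add_mem _ hm1 hm2) hm3
  set t := m - ((p - 1) + (p - 1)) with ht
  have htj : j + 1 ≤ t := by
    by_contra hc
    exact hW0m' (P_anti (by omega) hW0j)
  obtain ⟨W', ζ, x', hW'q, hζ, hWW, hx'⟩ := S.exists_root (by omega) hWq hW0m
  have hA := S.p_mul hV1 hV2 hWq (P_anti htj hW0m)
  have hB := S.p_mul hV1 hV2 (S.tau_pow_lift (p - 1) hWq) (by
    change ((θ p - 1) : O p) ^ (p - 1) * W0 ∈ _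
    exact Ideal.mul_mem_left _ _ (P_anti htj hW0m))
  have hC : (S.tau ^ (p - 1)) ((S.tau ^ (p - 1)) W) = 0 := by
    have h5 : p • V (p • V W) = 0 := by
      rw [map_nsmul]
      have : p • p • V (V W) = V (V (p • p • W)) := by simp only [map_nsmul]
      rw [this, hppW, map_zero, map_zero]
    rw [hA, map_neg, smul_neg, hB, neg_neg] at h5
    exact h5
  have hx'm : (x' : O p) ∉ P p (j + 1) := by
    intro h
    apply hW0m'
    rw [hx', show t + 1 = (t - j) + (j + 1) by omega]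
    exact pi_pow_mul_mem.2 h
  obtain ⟨c, hc, hpc⟩ := S.top_level (by omega) h0 hW'q
  have hD : c • (S.tau ^ (m - j)) w0 = 0 := by
    rw [← hc, ← hC, hWW, map_add, map_add, S.tau_pow_z (by omega) hζ, map_zero, add_zero]
    have : S.tau ^ (p - 1) * (S.tau ^ (p - 1) * S.tau ^ (t - j)) = S.tau ^ (m - j) := by
      rw [← pow_add, ← pow_add]; congr 1; omega
    exact (congrArg (fun f : AddMonoid.End L => f W') this).symm
  have hE : S.pr ((S.tau ^ (m - j)) w0) = 0 := by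
    rw [S.tau_pow_lift _ h0, S.q_ker]
    change ((θ p - 1) : O p) ^ (m - j) * (θ p - 1) ^ j ∈ _
    rw [← pow_add, mem_P]
    exact pow_dvd_pow _ (by omega)
  have hF := S.z_p _ hE
  apply hne
  obtain ⟨a, b, hab⟩ := (Prime.coprime_iff_not_dvd (Nat.prime_iff_prime_int.1 hp.out)).2 (hpc hx'm)
  have h6 : (1 : ℤ) • (S.tau ^ (m - j)) w0 = 0 := by
    rw [← hab, add_smul, mul_smul, mul_smul, hD, smul_zero, add_zero, natCast_zsmul, hF, smul_zero]
  rwa [one_smul] at h6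

end LieSetup

end Lie

end Pool.Agent.helper58.FR
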