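import Pool.Agent.helper40.FR.B
import Pool.Agent.helper58.FR.LIE

/-!
# The class bound: `L_{j,m}(γ)` has class at most `p - 2`
-/

namespace Pool.Agent.helper40.FR

open Polynomial Finset Pool.Agent.helper40.Laz

variable {p : ℕ} [hp : Fact p.Prime]

/-- Closure of the values of `β` under multiplication by `𝒪`. -/
theorem BB.span_smul {r : ℕ} (β : BB p r) (c x : OO p)
    (hx : x ∈ Submodule.span ℤ_[p] {z | ∃ a b, β.b a b = z}) :
    c * x ∈ Submodule.span ℤ_[p] {z | ∃ a b, β.b a b = z} := by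
  have h1 : ∀ x ∈ Submodule.span ℤ_[p] {z | ∃ a b, β.b a b = z},
      th p * x ∈ Submodule.span ℤ_[p] {z | ∃ a b, β.b a b = z} := by
    intro x hx
    induction hx using Submodule.span_induction with
    | mem x hx =>
      obtain ⟨a, b, rfl⟩ := hx
      exact Submodule.subset_span ⟨th p * a, th p * b, β.equi a b⟩
    | zero => rw [mul_zero]; exact zero_mem _
    | add x y _ _ hx hy => rw [mul_add]; exact add_mem hx hy
    | smul t x _ hx => rw [mul_smul_comm]; exact Submodule.smul_mem _ _ hx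
  have h2 : ∀ n : ℕ, ∀ x ∈ Submodule.span ℤ_[p] {z | ∃ a b, β.b a b = z},
      th p ^ n * x ∈ Submodule.span ℤ_[p] {z | ∃ a b, β.b a b = z} := by
    intro n
    induction n with
    | zero => intro x hx; simpa using hx
    | succ n ih => intro x hx; rw [pow_succ', mul_assoc]; exact h1 _ (ih x hx)
  obtain ⟨f, rfl⟩ := AdjoinRoot.mk_surjective c
  rw [← AdjoinRoot.aeval_eq, aeval_eq_sum_range, Finset.sum_mul]
  refine Submodule.sum_mem _ fun i _ => ?_
  rw [smul_mul_assoc]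
  exact Submodule.smul_mem _ _ (h2 i x hx)

/-- The values of `β` span `𝔭^r`. -/
theorem BB.span_eq {r : ℕ} (β : BB p r) {x : OO p} (hx : pi p ^ r ∣ x) :
    x ∈ Submodule.span ℤ_[p] {z | ∃ a b, β.b a b = z} := by
  obtain ⟨a, b, hab⟩ := β.full
  obtain ⟨u, hu⟩ := β.dvd a b
  have hu' : helper58.FR.res (p := p) u ≠ 0 := by
    intro h
    apply hab
    rw [helper58.FR.ker_res] at h
    rw [hu, pow_succ]
    exact mul_dvd_mul_left _ h
  obtain ⟨v, hv⟩ := ((helper58.FR.isUnit_iff_res (p := p) u).2 hu').exists_left_inv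
  obtain ⟨y, rfl⟩ := hx
  have h1 : pi p ^ r * y = (y * v) * β.b a b := by
    rw [hu]
    linear_combination (-(pi p ^ r) * y) * hv
  rw [h1]
  exact β.span_smul _ _ (Submodule.subset_span ⟨a, b, rfl⟩)

theorem P_eq (t : ℕ) : helper58.FR.P p t = PP p ^ t := rfl

/-- Division by `π^j`. -/
noncomputable def dvPi (j : ℕ) : ↥(helper58.FR.P p j) ≃ₗ[OO p] OO p := (mulPi p j).symm

theorem dvPi_spec (j : ℕ) (x : ↥(helper58.FR.P p j)) : pi p ^ j * dvPi j x = x := mulPi_symm x

theorem dvPi_zsmul (j : ℕ) (t : ℤ_[p]) (x : ↥(helper58.FR.P p j)) :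
    dvPi j (t • x) = t • dvPi j x := (dvPi j).toLinearMap.map_smul_of_tower t x

/-- `β` as an element of `Ĥ_j`, `r = j + 1`. -/
noncomputable def BB.toH {j : ℕ} (β : BB p (j + 1)) : helper58.FR.Hhat p j where
  form := LinearMap.mk₂ ℤ_[p] (fun x y => ⟨pi p ^ j * β.b (dvPi j x) (dvPi j y), by
      rw [helper58.FR.mem_P]
      change pi p ^ (2 * j + 1) ∣ _
      rw [show 2 * j + 1 = j + (j + 1) by ring, pow_add]
      exact mul_dvd_mul_left _ (β.dvd _ _)⟩)
    (fun x y z => Subtype.ext (by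
      change pi p ^ j * β.b (dvPi j (x + y)) _ = pi p ^ j * β.b _ _ + pi p ^ j * β.b _ _
      rw [map_add, map_add, LinearMap.add_apply, mul_add]))
    (fun t x y => Subtype.ext (by
      change pi p ^ j * β.b (dvPi j (t • x)) _ = t • (pi p ^ j * β.b _ _)
      rw [dvPi_zsmul, map_smul, LinearMap.smul_apply, mul_smul_comm]))
    (fun x y z => Subtype.ext (by
      change pi p ^ j * β.b _ (dvPi j (y + z)) = pi p ^ j * β.b _ _ + pi p ^ j * β.b _ _
      rw [map_add, map_add, mul_add]))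
    (fun t x y => Subtype.ext (by
      change pi p ^ j * β.b _ (dvPi j (t • y)) = t • (pi p ^ j * β.b _ _)
      rw [dvPi_zsmul, map_smul, mul_smul_comm]))
  alt x := Subtype.ext (by
    change pi p ^ j * β.b _ _ = 0
    rw [β.alt, mul_zero])
  equivariant x y := Subtype.ext (by
    change pi p ^ j * β.b (dvPi j (th p • x)) (dvPi j (th p • y)) = th p * (pi p ^ j * β.b _ _)
    have h : ∀ z, dvPi j (th p • z) = th p * dvPi j z := fun z => (dvPi j).map_smul _ z
    rw [h, h, β.equi]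
    ring)
  surj := by
    rw [eq_top_iff]
    rintro ⟨w, hw⟩ -
    obtain ⟨z, hz⟩ := helper58.FR.mem_P.1 hw
    have h1 : pi p ^ (j + 1) * z ∈ Submodule.span ℤ_[p] {z | ∃ a b, β.b a b = z} :=
      β.span_eq (dvd_mul_right _ _)
    have key : ∀ v, v ∈ Submodule.span ℤ_[p] {z | ∃ a b, β.b a b = z} →
        ∀ (hv : pi p ^ j * v ∈ helper58.FR.P p (2 * j + 1)),
        (⟨pi p ^ j * v, hv⟩ : ↥(helper58.FR.P p (2 * j + 1))) ∈ Submodule.span ℤ_[p]
          {z | ∃ x y : ↥(helper58.FR.P p j), (⟨pi p ^ j * β.b (dvPi j x) (dvPi j y), by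
            rw [helper58.FR.mem_P]
            change pi p ^ (2 * j + 1) ∣ _
            rw [show 2 * j + 1 = j + (j + 1) by ring, pow_add]
            exact mul_dvd_mul_left _ (β.dvd _ _)⟩ : ↥(helper58.FR.P p (2 * j + 1))) = z} := by
      intro v hv
      have hall : ∀ v ∈ Submodule.span ℤ_[p] {z | ∃ a b, β.b a b = z}, pi p ^ (j + 1) ∣ v := by
        intro v hv
        induction hv using Submodule.span_induction with
        | mem x hx => obtain ⟨a, b, rfl⟩ := hx; exact β.dvd a b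
        | zero => exact dvd_zero _
        | add x y _ _ hx hy => exact dvd_add hx hy
        | smul t x _ hx => rw [Algebra.smul_def]; exact Dvd.dvd.mul_left hx _
      have hmem : ∀ v ∈ Submodule.span ℤ_[p] {z | ∃ a b, β.b a b = z},
          pi p ^ j * v ∈ helper58.FR.P p (2 * j + 1) := by
        intro v hv
        rw [helper58.FR.mem_P]
        change pi p ^ (2 * j + 1) ∣ _
        rw [show 2 * j + 1 = j + (j + 1) by ring, pow_add]
        exact mul_dvd_mul_left _ (hall v hv)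
      induction hv using Submodule.span_induction with
      | mem x hx =>
        intro hv
        obtain ⟨a, b, rfl⟩ := hx
        refine Submodule.subset_span ⟨mulPi p j a, mulPi p j b, Subtype.ext ?_⟩
        change pi p ^ j * β.b ((mulPi p j).symm (mulPi p j a)) ((mulPi p j).symm (mulPi p j b)) = _
        rw [LinearEquiv.symm_apply_apply, LinearEquiv.symm_apply_apply]
      | zero =>
        intro hv
        have : (⟨pi p ^ j * 0, hv⟩ : ↥(helper58.FR.P p (2 * j + 1))) = 0 :=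
          Subtype.ext (mul_zero _)
        rw [this]; exact zero_mem _
      | add x y hx' hy' hx hy =>
        intro hv
        have : (⟨pi p ^ j * (x + y), hv⟩ : ↥(helper58.FR.P p (2 * j + 1)))
            = ⟨pi p ^ j * x, hmem x hx'⟩ + ⟨pi p ^ j * y, hmem y hy'⟩ :=
          Subtype.ext (mul_add _ _ _)
        rw [this]; exact add_mem (hx _) (hy _)
      | smul t x hx' hx =>
        intro hv
        have : (⟨pi p ^ j * (t • x), hv⟩ : ↥(helper58.FR.P p (2 * j + 1)))
            = t • ⟨pi p ^ j * x, hmem x hx'⟩ :=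
          Subtype.ext (mul_smul_comm _ _ _)
        rw [this]; exact Submodule.smul_mem _ _ (hx _)
    have h2 : w = pi p ^ j * (pi p ^ (j + 1) * z) := by
      rw [hz]
      change pi p ^ (2 * j + 1) * z = _
      rw [show 2 * j + 1 = j + (j + 1) by ring, pow_add, mul_assoc]
    subst h2
    exact key _ h1 _

theorem BB.toH_form {j : ℕ} (β : BB p (j + 1)) (x y : ↥(helper58.FR.P p j)) :
    (β.toH.form x y : OO p) = pi p ^ j * β.b (dvPi j x) (dvPi j y) := rfl

theorem dvPi_incl {j : ℕ} (β : BB p (j + 1)) (x y : ↥(helper58.FR.P p j)) :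
    dvPi j (helper58.FR.incl j (β.toH.form x y)) = β.b (dvPi j x) (dvPi j y) := by
  apply pi_pow_cancel (p := p) j
  rw [dvPi_spec]
  exact β.toH_form x y

theorem BB.toH_jac {j : ℕ} (β : BB p (j + 1)) (x y z : ↥(helper58.FR.P p j)) :
    β.toH.jac x y z = pi p ^ j * β.jac (dvPi j x) (dvPi j y) (dvPi j z) := by
  rw [helper58.FR.Hhat.jac, β.toH_form, β.toH_form, β.toH_form, dvPi_incl, dvPi_incl, dvPi_incl,
    BB.jac]
  ring

theorem BB.toH_J {j n : ℕ} (β : BB p (j + 1)) :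
    β.toH.J ≤ helper58.FR.P p (n + j) ↔ ∀ x y z, pi p ^ n ∣ β.jac x y z := by
  constructor
  · intro h x y z
    have h1 : β.toH.jac ((dvPi j).symm x) ((dvPi j).symm y) ((dvPi j).symm z)
        ∈ helper58.FR.P p (n + j) := h (Ideal.subset_span ⟨_, _, _, rfl⟩)
    rw [β.toH_jac, LinearEquiv.apply_symm_apply, LinearEquiv.apply_symm_apply,
      LinearEquiv.apply_symm_apply, add_comm n j] at h1
    exact helper58.FR.mem_P.1 (helper58.FR.pi_pow_mul_mem.1 h1)
  · intro h
    rw [helper58.FR.Hhat.J, Ideal.span_le]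
    rintro _ ⟨x, y, z, rfl⟩
    change β.toH.jac x y z ∈ _
    rw [β.toH_jac, add_comm n j]
    exact helper58.FR.pi_pow_mul_mem.2 (helper58.FR.mem_P.2 (h _ _ _))

/-- The levels of `β`: with `d = e + 1 - p - j`. -/
theorem BB.level_bound {j n : ℕ} (β : BB p (j + 1)) (hj : p ≤ j)
    (hJ : ∀ x y z, pi p ^ n ∣ β.jac x y z) : ∃ d, j + 3 ≤ d + p ∧ n + 4 ≤ 2 * d + 2 * p ∧
      ∀ s : ℕ, ∀ x y, pi p ^ s ∣ x → pi p ^ (s + d) ∣ β.b x y := by
  obtain ⟨e, he1, he2, he3⟩ := β.toH.exists_e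
  have hb := β.toH.J_bound (by omega) he2 he3 (β.toH_J.2 hJ)
  have h1p := hp.out.one_lt
  refine ⟨e + 1 - p - j, by omega, by omega, fun s x y hx => ?_⟩
  have h1 := β.toH.level he2 (s := s) (t := 0) (x := x) (y := y) (helper58.FR.mem_P.2 hx)
    (by rw [helper58.FR.P_zero]; trivial)
  have h2 : β.toH.B x y = pi p ^ j * β.b x y := by
    rw [helper58.FR.Hhat.B, β.toH_form]
    have h3 : ∀ z : OO p, dvPi j (z • helper58.FR.x0 j) = z := by
      intro z
      apply pi_pow_cancel (p := p) j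
      rw [dvPi_spec]
      change z * pi p ^ j = _
      ring
    rw [h3, h3]
  rw [h2] at h1
  have h4 : e + s + 0 = (j + (s + (e + 1 - p - j))) + (p - 1) := by omega
  rw [h4, helper58.FR.p_mul_mem] at h1
  exact helper58.FR.mem_P.1 (helper58.FR.pi_pow_mul_mem.1 h1)

/-- Lower central series of `L`. -/
theorem lcs_level {r : ℕ} (β : BB p r) (hr : p ≤ r + 2) (n : ℕ)
    (hJ : ∀ x y z, pi p ^ n ∣ β.jac x y z) (d : ℕ)
    (hd : ∀ s : ℕ, ∀ x y, pi p ^ s ∣ x → pi p ^ (s + d) ∣ β.b x y) (k : ℕ) :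
    ∀ x ∈ LieModule.lowerCentralSeries ℤ_[p] (β.L hr n hJ).L (β.L hr n hJ).L (k + 1),
      ∃ y, x = β.cl hr n hJ y ∧ pi p ^ (r + k * d) ∣ y := by
  have hspan : ∀ (M : LieSubmodule ℤ_[p] (β.L hr n hJ).L (β.L hr n hJ).L) (t : ℕ),
      (∀ x ∈ M, ∀ u : (β.L hr n hJ).L, ∃ y, ⁅u, x⁆ = β.cl hr n hJ y ∧ pi p ^ t ∣ y) →
      ∀ x ∈ (⁅(⊤ : LieIdeal ℤ_[p] (β.L hr n hJ).L), M⁆ :
        LieSubmodule ℤ_[p] (β.L hr n hJ).L (β.L hr n hJ).L),
        ∃ y, x = β.cl hr n hJ y ∧ pi p ^ t ∣ y := by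
    intro M t h x hx
    rw [← LieSubmodule.mem_toSubmodule, LieSubmodule.lieIdeal_oper_eq_linear_span] at hx
    induction hx using Submodule.span_induction with
    | mem x hx =>
      obtain ⟨⟨u, _⟩, ⟨v, hv⟩, rfl⟩ := hx
      exact h v hv u
    | zero => exact ⟨0, by rw [map_zero], dvd_zero _⟩
    | add x y _ _ hx hy =>
      obtain ⟨a, rfl, ha⟩ := hx
      obtain ⟨b, rfl, hb⟩ := hy
      exact ⟨a + b, by rw [map_add], dvd_add ha hb⟩
    | smul t x _ hx =>
      obtain ⟨a, rfl, ha⟩ := hx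
      exact ⟨t • a, by rw [map_smul], by rw [Algebra.smul_def]; exact Dvd.dvd.mul_left ha _⟩
  induction k with
  | zero =>
    rw [zero_add, LieModule.lowerCentralSeries_succ]
    refine hspan _ _ fun x _ u => ?_
    obtain ⟨x, rfl⟩ := β.cl_surjective hr n hJ x
    obtain ⟨u, rfl⟩ := β.cl_surjective hr n hJ u
    exact ⟨β.b u x, rfl, by simpa using β.dvd u x⟩
  | succ k ih =>
    rw [LieModule.lowerCentralSeries_succ]
    refine hspan _ _ fun x hx u => ?_
    obtain ⟨x, rfl, hx'⟩ := ih x hx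
    obtain ⟨u, rfl⟩ := β.cl_surjective hr n hJ u
    refine ⟨β.b u x, rfl, ?_⟩
    rw [β.skew u x, dvd_neg]
    have := hd _ x u hx'
    rwa [show r + k * d + d = r + (k + 1) * d by ring] at this

/-- **The class bound.** -/
theorem class_bound (hp5 : 5 ≤ p) {r : ℕ} (β : BB p r) (hr : p + 1 ≤ r) (n : ℕ)
    (hJ : ∀ x y z, pi p ^ n ∣ β.jac x y z) : (β.L (by omega) n hJ).Nil (p - 2) := by
  obtain ⟨j, rfl⟩ : ∃ j, r = j + 1 := ⟨r - 1, by omega⟩
  obtain ⟨d, hd1, hd2, hd3⟩ := β.level_bound (by omega) hJ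
  unfold ELie.Nil
  rw [eq_bot_iff]
  intro x hx
  obtain ⟨k, hk⟩ : ∃ k, p = k + 3 := ⟨p - 3, by omega⟩
  have h1 := lcs_level β (by omega) n hJ d hd3 k x (by
    rwa [show k + 1 = p - 2 by omega])
  obtain ⟨y, rfl, hy⟩ := h1
  rw [LieSubmodule.mem_bot, β.cl_eq_zero]
  refine (pow_dvd_pow _ ?_).trans hy
  obtain ⟨l, rfl⟩ : ∃ l, k = l + 2 := ⟨k - 2, by omega⟩
  have h2 : l * (j + 3 - p) ≤ l * d := Nat.mul_le_mul_left _ (by omega)
  have h3 : l * 3 ≤ l * d := Nat.mul_le_mul_left _ (by omega)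
  have h4 : (l + 2) * d = l * d + 2 * d := by ring
  rw [h4]
  omega

end Pool.Agent.helper40.FR
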