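import Mathlib

/-!
# Frames in branches of the maximal class graph: the `p`-adic side

`𝒪 = ℤ_p[θ]` with `θ` a primitive `p`-th root of unity, `𝔭 = (θ - 1)` its maximal ideal,
the sets `Ĥ_j` of surjective equivariant homomorphisms `γ : 𝔭^j ∧ 𝔭^j → 𝔭^(2j+1)`, the ideals
`J_j(γ)` and the Lie rings `L_{j,m}(γ)`.
-/

namespace Pool.Agent.helper58.FR

open Polynomial

variable (p : ℕ) [hp : Fact p.Prime]

/-- `𝒪 = ℤ_p[θ] = ℤ_p[X]/(Φ_p)`, the ring of integers of `ℚ_p(θ)`, where `θ` is a primitive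
`p`-th root of unity. -/
abbrev O : Type := AdjoinRoot (cyclotomic p ℤ_[p])

/-- The primitive `p`-th root of unity `θ` in `𝒪`. -/
noncomputable def θ : O p := AdjoinRoot.root (cyclotomic p ℤ_[p])

/-- `𝔭^t`, where `𝔭 = (θ - 1)` is the maximal ideal of `𝒪`. -/
noncomputable def P (t : ℕ) : Ideal (O p) := Ideal.span {θ p - 1} ^ t

/-- `Ĥ_j`: the surjective `P`-equivariant homomorphisms `γ : 𝔭^j ∧ 𝔭^j → 𝔭^(2j+1)`, written as
alternating `ℤ_p`-bilinear maps on `𝔭^j` whose values span `𝔭^(2j+1)`. -/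
structure Hhat (j : ℕ) where
  /-- the alternating bilinear map -/
  form : ↥(P p j) →ₗ[ℤ_[p]] ↥(P p j) →ₗ[ℤ_[p]] ↥(P p (2 * j + 1))
  alt : ∀ x, form x x = 0
  equivariant : ∀ x y, form (θ p • x) (θ p • y) = θ p • form x y
  surj : Submodule.span ℤ_[p] {z | ∃ x y, form x y = z} = ⊤

variable {p}

theorem P_anti {s t : ℕ} (h : s ≤ t) : P p t ≤ P p s := Ideal.pow_le_pow_right h

/-- The inclusion `𝔭^(2j+1) ⊆ 𝔭^j`. -/
noncomputable def incl (j : ℕ) : ↥(P p (2 * j + 1)) →ₗ[ℤ_[p]] ↥(P p j) :=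
  (Submodule.inclusion (P_anti (by omega : j ≤ 2 * j + 1))).restrictScalars ℤ_[p]

/-- `γ(γ(x ∧ y) ∧ z) + γ(γ(y ∧ z) ∧ x) + γ(γ(z ∧ x) ∧ y)` as an element of `𝒪`. -/
noncomputable def Hhat.jac {j : ℕ} (γ : Hhat p j) (x y z : ↥(P p j)) : O p :=
  (γ.form (incl j (γ.form x y)) z : O p) + (γ.form (incl j (γ.form y z)) x : O p) +
    (γ.form (incl j (γ.form z x)) y : O p)

/-- The ideal `J_j(γ)` of `𝒪`. -/
noncomputable def Hhat.J {j : ℕ} (γ : Hhat p j) : Ideal (O p) :=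
  Ideal.span {w | ∃ x y z, γ.jac x y z = w}

end Pool.Agent.helper58.FR
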