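import Mathlib

/-!
# No perfect graded Lie algebra with one-dimensional components on `𝔽_p^*`
-/

namespace Pool.Agent.helper58.FR

variable {p : ℕ} [hp : Fact p.Prime]

/-- There are no structure constants `[e_u, e_v] = ψ(u,v) e_{u+v}` on `u ∈ ℤ/p`, `u ≠ 0`
(no component in degree zero), of a perfect Lie algebra. -/
theorem kreknin {F : Type*} [CommRing F] [IsDomain F] (ψ : ZMod p → ZMod p → F)
    (h0 : ∀ v, ψ 0 v = 0) (hanti : ∀ u v, ψ u v = 0 → ψ v u = 0)
    (hjac : ∀ u v w, ψ u v * ψ (u + v) w + ψ v w * ψ (v + w) u + ψ w u * ψ (w + u) v = 0)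
    (hperf : ∀ r : ZMod p, r ≠ 0 → ∃ v, ψ (r - v) v ≠ 0) : False := by
  have key : ∀ k : ℕ, 1 ≤ k → k ≤ p → ∀ r : ZMod p, r ≠ 0 →
      ∃ i : ℕ, k ≤ i ∧ i < p ∧ ψ (r - i) i ≠ 0 := by
    intro k hk
    induction k, hk using Nat.le_induction with
    | base =>
      intro _ r hr
      obtain ⟨v, hv⟩ := hperf r hr
      refine ⟨v.val, ?_, ZMod.val_lt v, by simpa using hv⟩
      rcases Nat.eq_zero_or_pos v.val with h | h
      · exfalso
        have hv0 : v = 0 := (ZMod.val_eq_zero v).1 h
        subst hv0
        exact hv (hanti _ _ (h0 _))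
      · exact h
    | succ k hk ih =>
      intro hkp r hr
      have ih' := ih (by omega)
      obtain ⟨i, hki, hip, hi⟩ := ih' r hr
      rcases Nat.lt_or_ge k i with h | h
      · exact ⟨i, h, hip, hi⟩
      · have hik : i = k := le_antisymm h hki
        subst hik
        have hk0 : (i : ZMod p) ≠ 0 := by
          rw [Ne, ZMod.natCast_eq_zero_iff]
          exact fun hd => absurd (Nat.le_of_dvd (by omega) hd) (by omega)
        obtain ⟨v, hiv, hvp, hv⟩ := ih' (i : ZMod p) hk0
        have hvi : v ≠ i := by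
          rintro rfl
          apply hv
          rw [sub_self]
          exact h0 _
        have hlt : i < v := lt_of_le_of_ne hiv (Ne.symm hvi)
        have hu : ((i + p - v : ℕ) : ZMod p) = (i : ZMod p) - v := by
          rw [Nat.cast_sub (by omega)]; simp
        have hj := hjac ((i : ZMod p) - v) v (r - i)
        have e1 : (i : ZMod p) - v + v = i := by ring
        have e2 : (v : ZMod p) + (r - i) = r - (i - v) := by ring
        have e3 : r - (i : ZMod p) + (i - v) = r - v := by ring
        rw [e1, e2, e3] at hj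
        have hne : ψ ((i : ZMod p) - v) v * ψ i (r - i) ≠ 0 :=
          mul_ne_zero hv fun h => hi (hanti _ _ h)
        by_cases hc : ψ (r - v) (v : ZMod p) = 0
        · refine ⟨i + p - v, by omega, by omega, ?_⟩
          rw [hu]
          intro hd
          rw [hd, hc, mul_zero, mul_zero, add_zero, add_zero] at hj
          exact hne hj
        · exact ⟨v, hlt, hvp, hc⟩
  obtain ⟨i, hi, hip, _⟩ := key p hp.out.one_lt.le le_rfl 1 (by
    have : Fact (1 < p) := ⟨hp.out.one_lt⟩
    exact one_ne_zero)
  omega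

end Pool.Agent.helper58.FR
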