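import Pool.Agent.helper58.FR.OF
import Pool.Agent.helper58.FR.KRE

/-!
# Fourier analysis of `γ ∈ Ĥ_j` and the bound for `J_j(γ)`
-/

namespace Pool.Agent.helper58.FR

open Polynomial

variable {p : ℕ} [hp : Fact p.Prime] {j : ℕ}

/-- The generator `(θ p - 1)^j` of `𝔭^j`. -/
noncomputable def x0 (j : ℕ) : ↥(P p j) := ⟨(θ p - 1) ^ j, mem_P.2 dvd_rfl⟩

theorem eq_smul_x0 (x : ↥(P p j)) : ∃ r : O p, x = r • x0 j := by
  obtain ⟨r, hr⟩ := mem_P.1 x.2
  refine ⟨r, Subtype.ext ?_⟩
  rw [hr, mul_comm]; rfl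

variable (γ : Hhat p j)

/-- `B(r,s) = γ(r (θ p - 1)^j ∧ s (θ p - 1)^j)`. -/
noncomputable def Hhat.B (r s : O p) : O p := (γ.form (r • x0 j) (s • x0 j) : O p)

namespace Hhat

theorem B_add_left (r r' s : O p) : γ.B (r + r') s = γ.B r s + γ.B r' s := by
  simp [B, add_smul]

theorem B_add_right (r s s' : O p) : γ.B r (s + s') = γ.B r s + γ.B r s' := by
  simp [B, add_smul]

theorem B_smul_left (c : ℤ_[p]) (r s : O p) : γ.B (c • r) s = c • γ.B r s := by
  simp only [B, smul_assoc, map_smul, LinearMap.smul_apply]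
  rfl

theorem B_smul_right (c : ℤ_[p]) (r s : O p) : γ.B r (c • s) = c • γ.B r s := by
  simp only [B, smul_assoc, map_smul]
  rfl

theorem B_self (r : O p) : γ.B r r = 0 := by simp [B, γ.alt]

theorem B_zero_left (s : O p) : γ.B 0 s = 0 := by simp [B]

theorem B_zero_right (r : O p) : γ.B r 0 = 0 := by simp [B]

theorem B_swap (r s : O p) : γ.B s r = - γ.B r s := by
  have h := γ.B_self (r + s)
  rw [B_add_left, B_add_right, B_add_right, B_self, B_self] at h
  rw [zero_add, add_zero] at h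
  exact eq_neg_of_add_eq_zero_right h

theorem B_θ (r s : O p) : γ.B (θ p * r) (θ p * s) = θ p * γ.B r s := by
  simp only [B, ← smul_smul, γ.equivariant]
  rfl

theorem B_mem (r s : O p) : γ.B r s ∈ P p (2 * j + 1) := (γ.form (r • x0 j) (s • x0 j)).2

theorem B_θpow (n : ℕ) (r s : O p) : γ.B (θ p ^ n * r) (θ p ^ n * s) = θ p ^ n * γ.B r s := by
  induction n with
  | zero => simp
  | succ n ih => rw [pow_succ', mul_assoc, mul_assoc, B_θ, ih, mul_assoc]

theorem B_E (k : ZMod p) (r s : O p) : γ.B (E k * r) (E k * s) = E k * γ.B r s := by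
  rw [E_apply, B_θpow]

theorem B_sum_left {ι : Type*} (S : Finset ι) (f : ι → O p) (s : O p) :
    γ.B (∑ i ∈ S, f i) s = ∑ i ∈ S, γ.B (f i) s := by
  classical
  induction S using Finset.induction_on with
  | empty => simp [B_zero_left]
  | insert a S ha ih => rw [Finset.sum_insert ha, Finset.sum_insert ha, B_add_left, ih]

theorem B_sum_right {ι : Type*} (S : Finset ι) (f : ι → O p) (s : O p) :
    γ.B s (∑ i ∈ S, f i) = ∑ i ∈ S, γ.B s (f i) := by
  classical
  induction S using Finset.induction_on with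
  | empty => simp [B_zero_right]
  | insert a S ha ih => rw [Finset.sum_insert ha, Finset.sum_insert ha, B_add_right, ih]

theorem B_p_left (r s : O p) : γ.B ((p : O p) * r) s = p * γ.B r s := by
  have h := γ.B_smul_left (p : ℤ_[p]) r s
  rw [Algebra.smul_def, Algebra.smul_def, map_natCast] at h
  exact h

end Hhat

theorem sum_E_univ : ∑ k : ZMod p, (E k : O p) = 0 := by
  have h := sum_E (p := p) 1
  have h1 : (1 : ZMod p) ≠ 0 := by
    have : Fact (1 < p) := ⟨one_lt_p⟩
    exact one_ne_zero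
  simpa [h1] using h

theorem sum_E_neg : ∑ k : ZMod p, (E (-k) : O p) = 0 := by
  rw [← sum_E_univ (p := p)]
  exact Equiv.sum_comp (Equiv.neg (ZMod p)) (fun k => (E k : O p))

namespace Hhat

/-- `g(k) = γ(θ^k (θ p - 1)^j ∧ (θ p - 1)^j)`. -/
noncomputable def g (k : ZMod p) : O p := γ.B (E k) 1

/-- `b_a = Σ_k θ^(-ak) g(k)`. -/
noncomputable def b (a : ZMod p) : O p := ∑ k : ZMod p, E (-(a * k)) * γ.g k

theorem g_mem (k : ZMod p) : γ.g k ∈ P p (2 * j + 1) := γ.B_mem _ _

theorem B_EE (k l : ZMod p) : γ.B (E k) (E l) = E l * γ.g (k - l) := by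
  have h1 : (E l : O p) * E (k - l) = E k := by rw [← AddChar.map_add_eq_mul]; congr 1; ring
  have h := γ.B_E l (E (k - l)) 1
  rw [h1, mul_one] at h
  exact h

theorem sum_g : ∑ k : ZMod p, γ.g k = 0 := by
  simp only [g]
  rw [← B_sum_left, sum_E_univ, B_zero_left]

theorem b_zero : γ.b 0 = 0 := by
  simp [b, sum_g]

theorem g_neg (k : ZMod p) : γ.g (-k) = - (E (-k) * γ.g k) := by
  rw [g, g, B_swap, ← B_E, ← AddChar.map_add_eq_mul, neg_add_cancel, AddChar.map_zero_eq_one,
    mul_one]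

theorem b_one_sub (a : ZMod p) : γ.b (1 - a) = - γ.b a := by
  rw [b, b, ← Equiv.sum_comp (Equiv.neg (ZMod p)), ← Finset.sum_neg_distrib]
  refine Finset.sum_congr rfl fun k _ => ?_
  simp only [Equiv.neg_apply]
  rw [g_neg, mul_neg, ← mul_assoc, ← AddChar.map_add_eq_mul]
  congr 3
  ring

theorem b_one : γ.b 1 = 0 := by
  have h := γ.b_one_sub 0
  rw [sub_zero, b_zero, neg_zero] at h
  exact h

theorem b_mem (a : ZMod p) : γ.b a ∈ P p (2 * j + 2) := by
  have h : γ.b a = ∑ k : ZMod p, (E (-(a * k)) - 1) * γ.g k := by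
    simp only [sub_mul, one_mul, Finset.sum_sub_distrib, sum_g, sub_zero]; rfl
  rw [h]
  refine Ideal.sum_mem _ fun k _ => ?_
  have := mul_mem_P (E_sub_one_mem (-(a * k))) (γ.g_mem k)
  rwa [show 1 + (2 * j + 1) = 2 * j + 2 by ring] at this

/-- Fourier inversion. -/
theorem fourier_g (t : ZMod p) : (p : O p) * γ.g t = ∑ a : ZMod p, E (a * t) * γ.b a := by
  simp only [b, Finset.mul_sum]
  rw [Finset.sum_comm]
  have h : ∀ k : ZMod p, ∑ a : ZMod p, (E (a * t) : O p) * (E (-(a * k)) * γ.g k)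
      = if k = t then (p : O p) * γ.g k else 0 := by
    intro k
    have h1 : ∀ a : ZMod p, (E (a * t) : O p) * (E (-(a * k)) * γ.g k) = E (a * (t - k)) * γ.g k := by
      intro a
      rw [← mul_assoc, ← AddChar.map_add_eq_mul]
      congr 2
      ring
    rw [Finset.sum_congr rfl fun a _ => h1 a, ← Finset.sum_mul, sum_E]
    by_cases hk : k = t
    · subst hk; simp
    · rw [if_neg (sub_ne_zero.2 (Ne.symm hk)), if_neg hk, zero_mul]
  rw [Finset.sum_congr rfl fun k _ => h k]
  simp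

theorem fourier_EE (k l : ZMod p) :
    (p : O p) * γ.B (E k) (E l) = ∑ a : ZMod p, E (a * k + (1 - a) * l) * γ.b a := by
  rw [B_EE, mul_left_comm, fourier_g, Finset.mul_sum]
  refine Finset.sum_congr rfl fun a _ => ?_
  rw [← mul_assoc, ← AddChar.map_add_eq_mul]
  congr 2
  ring

/-- The formula `p γ(r (θ p - 1)^j ∧ s (θ p - 1)^j) = Σ_a σ_a(r) σ_(1-a)(s) b_a`. -/
theorem formula (r s : O p) :
    (p : O p) * γ.B r s = ∑ a : ZMod p, sig a r * sig (1 - a) s * γ.b a := by
  have hEE : ∀ k l : ZMod p, (p : O p) * γ.B (E k) (E l)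
      = ∑ a : ZMod p, sig a (E k) * sig (1 - a) (E l) * γ.b a := by
    intro k l
    rw [fourier_EE]
    refine Finset.sum_congr rfl fun a _ => ?_
    by_cases ha : a = 0
    · subst ha; rw [b_zero, mul_zero, mul_zero]
    by_cases ha1 : a = 1
    · subst ha1; rw [b_one, mul_zero, mul_zero]
    rw [sig_E ha, sig_E (sub_ne_zero.2 (Ne.symm ha1)), ← AddChar.map_add_eq_mul]
  have hE : ∀ k : ZMod p, ∀ s, (p : O p) * γ.B (E k) s
      = ∑ a : ZMod p, sig a (E k) * sig (1 - a) s * γ.b a := by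
    intro k s
    have hs : s ∈ Submodule.span ℤ_[p] (Set.range (fun k : ZMod p => (E k : O p))) := by
      rw [span_E]; trivial
    induction hs using Submodule.span_induction with
    | mem x hx => obtain ⟨l, rfl⟩ := hx; exact hEE k l
    | zero => simp [B_zero_right]
    | add x y _ _ hx hy =>
      rw [B_add_right, mul_add, hx, hy, ← Finset.sum_add_distrib]
      refine Finset.sum_congr rfl fun a _ => ?_
      rw [map_add]; ring
    | smul c x _ hx =>
      rw [B_smul_right, mul_smul_comm, hx, Finset.smul_sum]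
      refine Finset.sum_congr rfl fun a _ => ?_
      rw [map_smul, mul_smul_comm, smul_mul_assoc]
  have hr : r ∈ Submodule.span ℤ_[p] (Set.range (fun k : ZMod p => (E k : O p))) := by
    rw [span_E]; trivial
  induction hr using Submodule.span_induction with
  | mem x hx => obtain ⟨l, rfl⟩ := hx; exact hE l s
  | zero => simp [B_zero_left]
  | add x y _ _ hx hy =>
    rw [B_add_left, mul_add, hx, hy, ← Finset.sum_add_distrib]
    refine Finset.sum_congr rfl fun a _ => ?_
    rw [map_add]; ring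
  | smul c x _ hx =>
    rw [B_smul_left, mul_smul_comm, hx, Finset.smul_sum]
    refine Finset.sum_congr rfl fun a _ => ?_
    rw [map_smul, smul_mul_assoc, smul_mul_assoc]

/-- `c_a = b_a / (θ p - 1)^j`. -/
theorem exists_c : ∃ c : ZMod p → O p, ∀ a, γ.b a = (θ p - 1) ^ j * c a := by
  have h : ∀ a, ∃ c : O p, γ.b a = (θ p - 1) ^ j * c := fun a =>
    (mem_P.1 (P_anti (by omega : j ≤ 2 * j + 2) (γ.b_mem a)))
  choose c hc using h
  exact ⟨c, hc⟩

theorem exists_C (r s : O p) : ∃ C : O p, γ.B r s = (θ p - 1) ^ j * C ∧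
    incl j (γ.form (r • x0 j) (s • x0 j)) = C • x0 j := by
  obtain ⟨C, hC⟩ := eq_smul_x0 (incl j (γ.form (r • x0 j) (s • x0 j)))
  refine ⟨C, ?_, hC⟩
  have h := congrArg (Subtype.val) hC
  change γ.B r s = C * (θ p - 1) ^ j at h
  rw [h, mul_comm]

/-- `T(r,s,u) = γ(γ(r (θ p - 1)^j ∧ s (θ p - 1)^j) ∧ u (θ p - 1)^j)`. -/
noncomputable def T (r s u : O p) : O p :=
  (γ.form (incl j (γ.form (r • x0 j) (s • x0 j))) (u • x0 j) : O p)

theorem T_zero_left (s u : O p) : γ.T 0 s u = 0 := by simp [T]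

theorem T_zero_mid (s u : O p) : γ.T s 0 u = 0 := by simp [T]

theorem T_zero_right (s u : O p) : γ.T s u 0 = 0 := by simp [T]

theorem T_formula {c : ZMod p → O p} (hc : ∀ a, γ.b a = (θ p - 1) ^ j * c a) (k l n : ZMod p) :
    (p : O p) ^ 2 * γ.T (E k) (E l) (E n) = ∑ e : ZMod p, ∑ a : ZMod p,
      E (e * (a * k + (1 - a) * l) + (1 - e) * n) * (γ.b e * sig e (c a)) := by
  obtain ⟨C, hC1, hC2⟩ := γ.exists_C (E k) (E l)
  have hT : γ.T (E k) (E l) (E n) = γ.B C (E n) := by rw [T, hC2]; rfl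
  have hpC : (p : O p) * C = ∑ a : ZMod p, E (a * k + (1 - a) * l) * c a := by
    apply mul_left_cancel₀ (pi_pow_ne_zero (p := p) j)
    rw [mul_left_comm, ← hC1, fourier_EE, Finset.mul_sum]
    refine Finset.sum_congr rfl fun a _ => ?_
    rw [hc a]; ring
  rw [hT, pow_two, mul_assoc, ← B_p_left, formula]
  refine Finset.sum_congr rfl fun e _ => ?_
  by_cases he : e = 0
  · subst he; simp [b_zero]
  by_cases he1 : e = 1
  · subst he1; simp [b_one]
  rw [hpC, map_sum, sig_E (sub_ne_zero.2 (Ne.symm he1)), Finset.sum_mul, Finset.sum_mul]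
  refine Finset.sum_congr rfl fun a _ => ?_
  rw [map_mul, sig_E he, AddChar.map_add_eq_mul]
  ring

end Hhat

theorem sum_rot {ι κ μ M : Type*} [Fintype ι] [Fintype κ] [Fintype μ] [AddCommMonoid M]
    (f : ι → κ → μ → M) : ∑ k, ∑ l, ∑ e, f k l e = ∑ e, ∑ k, ∑ l, f k l e := by
  rw [Finset.sum_congr rfl fun k _ => Finset.sum_comm]
  exact Finset.sum_comm

/-- Projection of a double exponential sum. -/
theorem proj (G : ZMod p → ZMod p → O p) (α β : ZMod p → ZMod p → ZMod p) (u v e0 a0 : ZMod p)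
    (huniq : ∀ e a, G e a ≠ 0 → α e a = u → β e a = v → e = e0 ∧ a = a0)
    (hsol : G e0 a0 = 0 ∨ (α e0 a0 = u ∧ β e0 a0 = v)) :
    ∑ k : ZMod p, ∑ l : ZMod p, (E (-(u * k + v * l)) : O p) *
      (∑ e : ZMod p, ∑ a : ZMod p, E (α e a * k + β e a * l) * G e a) = (p : O p) ^ 2 * G e0 a0 := by
  have h1 : ∀ e a : ZMod p, ∑ k : ZMod p, ∑ l : ZMod p, (E (-(u * k + v * l)) : O p) *
      (E (α e a * k + β e a * l) * G e a)
      = if α e a = u ∧ β e a = v then (p : O p) ^ 2 * G e a else 0 := by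
    intro e a
    have h2 : ∀ k l : ZMod p, (E (-(u * k + v * l)) : O p) * (E (α e a * k + β e a * l) * G e a)
        = E (k * (α e a - u)) * E (l * (β e a - v)) * G e a := by
      intro k l
      rw [← mul_assoc, ← AddChar.map_add_eq_mul, ← AddChar.map_add_eq_mul]
      congr 2
      ring
    simp only [h2]
    simp only [← Finset.sum_mul, ← Finset.mul_sum]
    rw [sum_E, sum_E]
    simp only [sub_eq_zero]
    by_cases ha : α e a = u
    · by_cases hb : β e a = v
      · simp [ha, hb, pow_two]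
      · simp [ha, hb]
    · simp [ha]
  have h3 : ∑ k : ZMod p, ∑ l : ZMod p, (E (-(u * k + v * l)) : O p) *
      (∑ e : ZMod p, ∑ a : ZMod p, E (α e a * k + β e a * l) * G e a)
      = ∑ e : ZMod p, ∑ a : ZMod p, ∑ k : ZMod p, ∑ l : ZMod p, (E (-(u * k + v * l)) : O p) *
      (E (α e a * k + β e a * l) * G e a) := by
    simp only [Finset.mul_sum]
    rw [sum_rot]
    refine Finset.sum_congr rfl fun e _ => ?_
    rw [sum_rot]
  rw [h3]
  simp only [h1]
  rw [Finset.sum_eq_single e0, Finset.sum_eq_single a0]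
  · rcases hsol with h | h
    · rw [h, mul_zero]; simp
    · rw [if_pos h]
  · intro a _ ha
    split_ifs with h
    · by_cases hG : G e0 a = 0
      · rw [hG, mul_zero]
      · exact absurd (huniq _ _ hG h.1 h.2).2 ha
    · rfl
  · simp
  · intro e _ he
    refine Finset.sum_eq_zero fun a _ => ?_
    split_ifs with h
    · by_cases hG : G e a = 0
      · rw [hG, mul_zero]
      · exact absurd (huniq _ _ hG h.1 h.2).1 he
    · rfl
  · simp

end Pool.Agent.helper58.FR
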