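import Pool.Agent.helper58.FR.Defs

/-!
# Facts on `𝒪 = ℤ_p[θ]`
-/

namespace Pool.Agent.helper58.FR

open Polynomial

variable {p : ℕ} [hp : Fact p.Prime]

theorem one_lt_p : 1 < p := hp.out.one_lt

theorem irreducible_cyc : Irreducible (cyclotomic p ℤ_[p]) := by
  have hE := cyclotomic_comp_X_add_one_isEisensteinAt p
  have hmap : ((cyclotomic p ℤ).comp (X + 1)).map (Int.castRingHom ℤ_[p])
      = (cyclotomic p ℤ_[p]).comp (X + 1) := by
    rw [Polynomial.map_comp, map_cyclotomic]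
    simp
  have hmonic : ((cyclotomic p ℤ_[p]).comp (X + 1)).Monic :=
    (cyclotomic.monic p ℤ_[p]).comp (monic_X_add_C 1) (by
      rw [show (X + 1 : ℤ_[p][X]) = X + C 1 by simp, natDegree_X_add_C]; exact one_ne_zero)
  have hprime : (Ideal.span {(p : ℤ_[p])}).IsPrime := by
    rw [Ideal.span_singleton_prime (by exact_mod_cast hp.out.ne_zero)]
    exact PadicInt.prime_p
  have hE' : ((cyclotomic p ℤ_[p]).comp (X + 1)).IsEisensteinAt (Ideal.span {(p : ℤ_[p])}) := by
    refine ⟨?_, ?_, ?_⟩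
    · rw [hmonic.leadingCoeff]
      exact fun h => hprime.ne_top ((Ideal.eq_top_iff_one _).2 h)
    · intro n hn
      rw [← hmap] at hn ⊢
      have hd : n < ((cyclotomic p ℤ).comp (X + 1)).natDegree := lt_of_lt_of_le hn natDegree_map_le
      have h1 := hE.mem hd
      rw [Ideal.mem_span_singleton] at h1
      obtain ⟨c, hc⟩ := h1
      rw [coeff_map, hc, Ideal.mem_span_singleton]
      exact ⟨(c : ℤ_[p]), by simp⟩
    · have h0 : ((cyclotomic p ℤ_[p]).comp (X + 1)).coeff 0 = (p : ℤ_[p]) := by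
        rw [coeff_zero_eq_eval_zero, eval_comp]
        simp [eval_one_cyclotomic_prime]
      rw [h0, Ideal.span_singleton_pow, Ideal.mem_span_singleton]
      rintro ⟨c, hc⟩
      have hp0 : (p : ℤ_[p]) ≠ 0 := by exact_mod_cast hp.out.ne_zero
      have h1 : (p : ℤ_[p]) * 1 = (p : ℤ_[p]) * (p * c) := by
        rw [mul_one]; calc (p : ℤ_[p]) = p ^ 2 * c := hc
          _ = _ := by ring
      have h2 := mul_left_cancel₀ hp0 h1
      exact PadicInt.prime_p.not_isUnit (IsUnit.of_mul_eq_one c h2.symm)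
  have hdeg : 0 < ((cyclotomic p ℤ_[p]).comp (X + 1)).natDegree := by
    rw [natDegree_comp, show (X + 1 : ℤ_[p][X]) = X + C 1 by simp, natDegree_X_add_C, mul_one,
      natDegree_cyclotomic]
    exact Nat.totient_pos.2 hp.out.pos
  have hirr := hE'.irreducible hprime hmonic.isPrimitive hdeg
  have := MulEquiv.irreducible_iff (Polynomial.algEquivAevalXAddC (1 : ℤ_[p]))
    (x := cyclotomic p ℤ_[p])
  rw [← this]
  convert hirr using 1
  simp [Polynomial.algEquivAevalXAddC, comp, aeval_def]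

instance : IsDomain (O p) := AdjoinRoot.isDomain_of_prime irreducible_cyc.prime

instance : Module.Finite ℤ_[p] (O p) := (cyclotomic.monic p ℤ_[p]).finite_adjoinRoot

instance : Module.Free ℤ_[p] (O p) := (cyclotomic.monic p ℤ_[p]).free_adjoinRoot

theorem geom_θ : ∑ k ∈ Finset.range p, θ p ^ k = 0 := by
  have h := AdjoinRoot.isRoot_root (cyclotomic p ℤ_[p])
  rw [map_cyclotomic] at h
  change (cyclotomic p (O p)).eval (θ p) = 0 at h
  rw [cyclotomic_prime (O p) p, eval_geom_sum] at h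
  exact h

theorem θ_pow : θ p ^ p = 1 := by
  have h := geom_sum_mul (θ p) p
  rw [geom_θ, zero_mul] at h
  exact (sub_eq_zero.1 h.symm)

theorem algebraMap_injective : Function.Injective (algebraMap ℤ_[p] (O p)) := by
  rw [AdjoinRoot.algebraMap_eq]
  apply AdjoinRoot.of.injective_of_degree_ne_zero
  rw [degree_cyclotomic]
  exact_mod_cast (Nat.totient_pos.2 hp.out.pos).ne'

instance : CharZero (O p) := charZero_of_injective_algebraMap (algebraMap_injective (p := p))

theorem prim_θ : IsPrimitiveRoot (θ p) p := by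
  have : NeZero ((p : ℕ) : O p) := ⟨by exact_mod_cast hp.out.ne_zero⟩
  rw [← isRoot_cyclotomic_iff]
  have h := AdjoinRoot.isRoot_root (cyclotomic p ℤ_[p])
  rwa [map_cyclotomic] at h

theorem pi_ne_zero : ((θ p - 1) : O p) ≠ 0 := sub_ne_zero.2 (prim_θ.ne_one one_lt_p)

/-- The residue map `𝒪 → 𝔽_p`. -/
noncomputable def res : O p →+* ZMod p :=
  AdjoinRoot.lift (PadicInt.toZMod (p := p)) 1 (by
    rw [← eval_map, map_cyclotomic, eval_one_cyclotomic_prime]; simp)

@[simp] theorem res_θ : res (θ p) = 1 := AdjoinRoot.lift_root _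

@[simp] theorem res_pi : res ((θ p - 1) : O p) = 0 := by simp

theorem res_algebraMap (c : ℤ_[p]) : res (algebraMap ℤ_[p] (O p) c) = PadicInt.toZMod c :=
  AdjoinRoot.lift_of _

/-- `p` is associated to `(θ p - 1)^(p-1)`. -/
theorem assoc_p : Associated (p : O p) ((θ p - 1) ^ (p - 1)) := by
  classical
  have h1 : (p : O p) = ∏ μ ∈ primitiveRoots p (O p), (1 - μ) := by
    have h := congrArg (Polynomial.eval 1) (cyclotomic_eq_prod_X_sub_primitiveRoots (prim_θ (p := p)))
    rw [eval_one_cyclotomic_prime, eval_prod] at h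
    simpa using h
  have h2 : (primitiveRoots p (O p)).card = p - 1 := by
    rw [prim_θ.card_primitiveRoots, Nat.totient_prime hp.out]
  rw [h1, ← h2, ← Finset.prod_const]
  have : ∀ s : Finset (O p), (∀ μ ∈ s, IsPrimitiveRoot μ p) →
      Associated (∏ μ ∈ s, (1 - μ)) (∏ _μ ∈ s, ((θ p - 1) : O p)) := by
    intro s
    induction s using Finset.induction_on with
    | empty => intro _; simp
    | insert a s ha ih =>
      intro hs
      rw [Finset.prod_insert ha, Finset.prod_insert ha]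
      refine Associated.mul_mul ?_ (ih fun μ hμ => hs μ (Finset.mem_insert_of_mem hμ))
      have haP := hs a (Finset.mem_insert_self _ _)
      obtain ⟨k, _, hk, rfl⟩ := (prim_θ (p := p)).isPrimitiveRoot_iff.1 haP
      have := (prim_θ (p := p)).associated_sub_one_pow_sub_one_of_coprime hk
      refine Associated.trans ?_ this.symm
      rw [← neg_sub]
      exact (Associated.refl _).neg_left
  exact this _ fun μ hμ => (mem_primitiveRoots hp.out.pos).1 hμ

theorem ker_res (x : O p) : res x = 0 ↔ ((θ p - 1) : O p) ∣ x := by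
  constructor
  · intro h
    obtain ⟨f, rfl⟩ := AdjoinRoot.mk_surjective x
    have h1 : (X - C 1 : ℤ_[p][X]) ∣ f - C (f.eval 1) := by
      rw [dvd_iff_isRoot]; simp
    obtain ⟨g, hg⟩ := h1
    have h2 : f = (X - C 1) * g + C (f.eval 1) := by rw [← hg]; ring
    have h3 : AdjoinRoot.mk (cyclotomic p ℤ_[p]) f
        = ((θ p - 1) : O p) * AdjoinRoot.mk _ g + algebraMap ℤ_[p] (O p) (f.eval 1) := by
      conv_lhs => rw [h2]
      rw [map_add, map_mul, map_sub, AdjoinRoot.mk_X, AdjoinRoot.mk_C, AdjoinRoot.mk_C, map_one]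
      rfl
    rw [h3] at h ⊢
    rw [map_add, map_mul, res_pi, zero_mul, zero_add, res_algebraMap] at h
    refine dvd_add (dvd_mul_right _ _) ?_
    have h4 : f.eval 1 ∈ RingHom.ker (PadicInt.toZMod (p := p)) := h
    rw [PadicInt.ker_toZMod, PadicInt.maximalIdeal_eq_span_p, Ideal.mem_span_singleton] at h4
    obtain ⟨c, hc⟩ := h4
    rw [hc, map_mul, map_natCast]
    refine Dvd.dvd.mul_right ?_ _
    refine Dvd.dvd.trans ?_ assoc_p.symm.dvd
    exact dvd_pow_self _ (by have := one_lt_p (p := p); omega)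
  · rintro ⟨y, rfl⟩
    rw [map_mul, res_pi, zero_mul]

theorem res_surj_int (x : O p) : ∃ c : ℤ, ((θ p - 1) : O p) ∣ x - c := by
  obtain ⟨c, hc⟩ := ZMod.intCast_surjective (res x)
  refine ⟨c, (ker_res _).1 ?_⟩
  rw [map_sub, map_intCast, hc, sub_self]

theorem isUnit_iff_res (x : O p) : IsUnit x ↔ res x ≠ 0 := by
  constructor
  · intro h
    exact (h.map res).ne_zero
  · intro h
    by_contra hx
    obtain ⟨M, hM, hxM⟩ := exists_max_ideal_of_mem_nonunits (a := x) hx
    have hmax : (M.comap (algebraMap ℤ_[p] (O p))).IsMaximal :=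
      Ideal.isMaximal_comap_of_isIntegral_of_isMaximal M
    have h1 : M.comap (algebraMap ℤ_[p] (O p)) = IsLocalRing.maximalIdeal ℤ_[p] :=
      IsLocalRing.eq_maximalIdeal hmax
    have h2 : (p : ℤ_[p]) ∈ M.comap (algebraMap ℤ_[p] (O p)) := by
      rw [h1, PadicInt.maximalIdeal_eq_span_p]; exact Ideal.mem_span_singleton_self _
    rw [Ideal.mem_comap, map_natCast] at h2
    have h3 : ((θ p - 1) : O p) ^ (p - 1) ∈ M := Ideal.mem_of_dvd M assoc_p.dvd h2
    have h4 : ((θ p - 1) : O p) ∈ M := hM.isPrime.mem_of_pow_mem _ h3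
    obtain ⟨c, hc⟩ := ZMod.intCast_surjective (res x)
    have h5 : ((θ p - 1) : O p) ∣ x - c := (ker_res _).1 (by rw [map_sub, map_intCast, hc, sub_self])
    have h6 : ((c : ℤ) : O p) ∈ M := by
      have : (c : O p) = x - (x - c) := by ring
      rw [this]
      exact M.sub_mem hxM (Ideal.mem_of_dvd M h5 h4)
    have h7 : ¬ (p : ℤ) ∣ c := by
      intro hd
      apply h
      rw [← hc]
      exact (ZMod.intCast_zmod_eq_zero_iff_dvd c p).2 hd
    have h8 : IsCoprime (p : ℤ) c :=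
      (Prime.coprime_iff_not_dvd (Nat.prime_iff_prime_int.1 hp.out)).2 h7
    obtain ⟨a, b, hab⟩ := h8
    apply hM.ne_top
    rw [Ideal.eq_top_iff_one]
    have : (1 : O p) = (a : O p) * p + (b : O p) * (c : O p) := by
      exact_mod_cast congrArg (Int.cast : ℤ → O p) hab.symm
    rw [this]
    exact M.add_mem (M.mul_mem_left _ (by simpa using h2)) (M.mul_mem_left _ h6)

/-! ### powers of `𝔭` -/

theorem mem_P {t : ℕ} {x : O p} : x ∈ P p t ↔ ((θ p - 1) : O p) ^ t ∣ x := by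
  rw [P, Ideal.span_singleton_pow, Ideal.mem_span_singleton]

theorem pi_pow_ne_zero (t : ℕ) : ((θ p - 1) : O p) ^ t ≠ 0 := pow_ne_zero _ pi_ne_zero

theorem P_zero : P p 0 = ⊤ := by rw [P, pow_zero, Ideal.one_eq_top]

theorem mul_mem_P {s t : ℕ} {x y : O p} (hx : x ∈ P p s) (hy : y ∈ P p t) : x * y ∈ P p (s + t) := by
  rw [mem_P] at *
  rw [pow_add]
  exact mul_dvd_mul hx hy

theorem pi_mul_mem {t : ℕ} {x : O p} : ((θ p - 1) : O p) * x ∈ P p (t + 1) ↔ x ∈ P p t := by
  rw [mem_P, mem_P, pow_succ', mul_dvd_mul_iff_left pi_ne_zero]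

theorem pi_pow_mul_mem {s t : ℕ} {x : O p} : ((θ p - 1) : O p) ^ s * x ∈ P p (s + t) ↔ x ∈ P p t := by
  rw [mem_P, mem_P, pow_add, mul_dvd_mul_iff_left (pi_pow_ne_zero s)]

theorem exists_p_eq : ∃ u : O p, IsUnit u ∧ (p : O p) = (θ p - 1) ^ (p - 1) * u := by
  obtain ⟨u, hu⟩ := (assoc_p (p := p)).symm
  exact ⟨u, u.isUnit, hu.symm⟩

theorem p_mul_mem {t : ℕ} {x : O p} : (p : O p) * x ∈ P p (t + (p - 1)) ↔ x ∈ P p t := by
  obtain ⟨u, hu, h⟩ := exists_p_eq (p := p)
  rw [h, add_comm t, mul_assoc, pi_pow_mul_mem]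
  constructor
  · intro h'
    obtain ⟨v, hv⟩ := hu.exists_left_inv
    have : x = v * (u * x) := by rw [← mul_assoc, hv, one_mul]
    rw [this]
    exact Ideal.mul_mem_left _ _ h'
  · intro h'
    exact Ideal.mul_mem_left _ _ h'

/-- An element of `𝔭^t` which is not in `𝔭^(t+1)` is `(θ p - 1)^t` times a unit. -/
theorem eq_pow_mul_unit {t : ℕ} {x : O p} (h : x ∈ P p t) (h' : x ∉ P p (t + 1)) :
    ∃ u : O p, res u ≠ 0 ∧ x = (θ p - 1) ^ t * u := by
  rw [mem_P] at h
  obtain ⟨u, rfl⟩ := h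
  refine ⟨u, fun hu => h' ?_, rfl⟩
  rw [ker_res] at hu
  exact pi_pow_mul_mem.2 (by rw [mem_P, pow_one]; exact hu)

theorem not_mem_of_ne_zero {x : O p} (hx : x ≠ 0) : ∃ t, x ∉ P p t := by
  by_contra h
  push Not at h
  apply hx
  have hI : (Ideal.span {((θ p - 1) : O p)}) ≠ ⊤ := by
    rw [Ne, Ideal.span_singleton_eq_top, isUnit_iff_res]; simp
  have h2 := Ideal.iInf_pow_eq_bot_of_isDomain (Ideal.span {((θ p - 1) : O p)}) hI
  have : x ∈ (⨅ i : ℕ, (Ideal.span {((θ p - 1) : O p)}) ^ i) := by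
    rw [Ideal.mem_iInf]; exact h
  rw [h2] at this
  exact this

/-- Expansion of an element of `𝔭^t`: the leading digit. -/
theorem digit {t : ℕ} {x : O p} (h : x ∈ P p t) :
    ∃ c : ℤ, x - c * (θ p - 1) ^ t ∈ P p (t + 1) ∧ (x ∉ P p (t + 1) → ¬ (p : ℤ) ∣ c) := by
  obtain ⟨y, rfl⟩ := mem_P.1 h
  obtain ⟨c, hc⟩ := res_surj_int y
  refine ⟨c, ?_, ?_⟩
  · have : ((θ p - 1) : O p) ^ t * y - c * (θ p - 1) ^ t = (θ p - 1) ^ t * (y - c) := by ring
    rw [this]
    exact pi_pow_mul_mem.2 (by rw [mem_P, pow_one]; exact hc)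
  · rintro h1 ⟨d, rfl⟩
    apply h1
    refine pi_pow_mul_mem.2 ?_
    rw [mem_P, pow_one]
    have h2 : ((θ p - 1) : O p) ∣ (((p : ℤ) * d : ℤ) : O p) := by
      rw [← ker_res, map_intCast]; simp
    simpa using dvd_add hc h2

/-! ### Galois automorphisms -/

/-- The additive character `a ↦ θ^a` of `ℤ/p`. -/
noncomputable def E : AddChar (ZMod p) (O p) := AddChar.zmodChar p θ_pow

theorem E_apply (a : ZMod p) : (E a : O p) = θ p ^ a.val := AddChar.zmodChar_apply _ _

theorem E_one : (E (1 : ZMod p) : O p) = θ p := by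
  have : Fact (1 < p) := ⟨one_lt_p⟩
  rw [E_apply, ZMod.val_one, pow_one]

theorem E_prim : (E : AddChar (ZMod p) (O p)).IsPrimitive :=
  AddChar.zmodChar_primitive_of_primitive_root p prim_θ

theorem sum_E (b : ZMod p) : ∑ a : ZMod p, (E (a * b) : O p) = if b = 0 then (p : O p) else 0 := by
  rw [AddChar.sum_mulShift b E_prim, ZMod.card]
  push_cast
  rfl

theorem res_E (a : ZMod p) : res (E a : O p) = 1 := by rw [E_apply, map_pow, res_θ, one_pow]

theorem E_sub_one_mem (a : ZMod p) : (E a : O p) - 1 ∈ P p 1 := by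
  rw [mem_P, pow_one, ← ker_res, map_sub, res_E, map_one, sub_self]

theorem E_nsmul (a : ZMod p) (n : ℕ) : (E a : O p) ^ n = E ((n : ZMod p) * a) := by
  rw [← nsmul_eq_mul, AddChar.map_nsmul_eq_pow]

theorem E_pow_val (a k : ZMod p) : (E a : O p) ^ k.val = E (a * k) := by
  rw [E_nsmul, ZMod.natCast_zmod_val, mul_comm]

theorem eval_E {a : ZMod p} (ha : a ≠ 0) : (cyclotomic p ℤ_[p]).eval₂ (algebraMap ℤ_[p] (O p)) (E a) = 0 := by
  rw [← eval_map, map_cyclotomic, cyclotomic_prime (O p) p, eval_geom_sum]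
  have h := sum_E (p := p) a
  rw [if_neg ha] at h
  rw [← h]
  symm
  refine Finset.sum_bij' (fun (k : ZMod p) _ => k.val) (fun n _ => (n : ZMod p)) ?_ ?_ ?_ ?_ ?_
  · intro k _; exact Finset.mem_range.2 (ZMod.val_lt k)
  · intro n _; exact Finset.mem_univ _
  · intro k _; simp
  · intro n hn; exact ZMod.val_cast_of_lt (Finset.mem_range.1 hn)
  · intro k _; rw [E_pow_val, mul_comm]

/-- The automorphism `θ ↦ θ^a` of `𝒪`, for `a ≠ 0`. -/
noncomputable def sig (a : ZMod p) : O p →ₐ[ℤ_[p]] O p :=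
  if ha : a ≠ 0 then AdjoinRoot.liftAlgHom _ (Algebra.ofId _ _) (E a) (eval_E ha)
  else AlgHom.id _ _

theorem sig_θ {a : ZMod p} (ha : a ≠ 0) : sig a (θ p) = E a := by
  rw [sig, dif_pos ha]
  exact AdjoinRoot.liftAlgHom_root _ _ _ _

theorem sig_E {a : ZMod p} (ha : a ≠ 0) (k : ZMod p) : sig a (E k) = E (a * k) := by
  rw [E_apply k, map_pow, sig_θ ha, E_pow_val]

theorem res_sig (a : ZMod p) (x : O p) : res (sig a x) = res x := by
  by_cases ha : a = 0
  · subst ha; rw [sig, dif_neg (by simp)]; rfl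
  · have h : (res (p := p)).comp (sig a : O p →ₐ[ℤ_[p]] O p).toRingHom = res := by
      apply AdjoinRoot.ringHom_ext
      · ext c
        simp
        change res (sig a (algebraMap ℤ_[p] (O p) c)) = res (algebraMap ℤ_[p] (O p) c)
        rw [AlgHom.commutes]
      · change res (sig a (θ p)) = res (θ p)
        rw [sig_θ ha, res_E, res_θ]
    exact congrArg (fun f : O p →+* ZMod p => f x) h

/-- `σ_a((θ p - 1)) = (θ p - 1)·u` with `u ≡ a`. -/
theorem sig_pi {a : ZMod p} (ha : a ≠ 0) : ∃ u : O p, sig a ((θ p - 1) : O p) = (θ p - 1) * u ∧ res u = a := by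
  refine ⟨∑ i ∈ Finset.range a.val, θ p ^ i, ?_, ?_⟩
  · rw [map_sub, sig_θ ha, map_one, E_apply, mul_comm, geom_sum_mul]
  · rw [map_sum]; simp

/-- `σ_a((θ p - 1)^n y) = (θ p - 1)^n z` with `z ≡ a^n y`. -/
theorem sig_pi_pow_mul {a : ZMod p} (ha : a ≠ 0) (n : ℕ) (y : O p) :
    ∃ z : O p, sig a ((θ p - 1) ^ n * y) = (θ p - 1) ^ n * z ∧ res z = a ^ n * res y := by
  obtain ⟨u, hu, hr⟩ := sig_pi ha
  refine ⟨u ^ n * sig a y, ?_, ?_⟩
  · rw [map_mul, map_pow, hu, mul_pow, mul_assoc]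
  · rw [map_mul, map_pow, hr, res_sig]

theorem sig_mem {a : ZMod p} {t : ℕ} {x : O p} (hx : x ∈ P p t) : sig a x ∈ P p t := by
  by_cases ha : a = 0
  · subst ha; rw [sig, dif_neg (by simp)]; exact hx
  · obtain ⟨y, rfl⟩ := mem_P.1 hx
    obtain ⟨z, hz, _⟩ := sig_pi_pow_mul ha t y
    rw [hz, mem_P]
    exact dvd_mul_right _ _

theorem span_E : Submodule.span ℤ_[p] (Set.range (fun k : ZMod p => (E k : O p))) = ⊤ := by
  rw [eq_top_iff]
  intro x _
  obtain ⟨f, rfl⟩ := AdjoinRoot.mk_surjective x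
  rw [← AdjoinRoot.aeval_eq, aeval_eq_sum_range]
  refine Submodule.sum_mem _ fun i _ => Submodule.smul_mem _ _ (Submodule.subset_span ⟨(i : ZMod p), ?_⟩)
  change (E (i : ZMod p) : O p) = θ p ^ i
  rw [← E_one, E_nsmul, mul_one]

end Pool.Agent.helper58.FR
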